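import Pool.Agent.H23.NVK.MTargets

/-!
# The moments of the mollifier sums, asymptotically (module M_BAS)
-/

set_option autoImplicit false

open MeasureTheory Set Filter
open scoped Real

namespace Pool.Agent.H10.NVK

open Pool.Agent.H23.NVK
open Pool.Agent.H31.CN (GR E lin mo al et Mf Fi Mt)

section Bas

variable {α : Type} (N : α → ℕ)

open Classical in
/-- the smoothed sum with a weight -/
noncomputable def W (g : Finset α → ℝ) (k : ℕ) (q : Finset α) (y : ℝ) : ℝ :=
  ∑ S ∈ (SM N y).filter (fun S => Disjoint S q),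
    (-2) ^ S.card / (nS N S : ℝ) * g S * Real.log (y / nS N S) ^ k

theorem W_add (g h : Finset α → ℝ) (k : ℕ) (q : Finset α) (y : ℝ) :
    W N (fun n => g n + h n) k q y = W N g k q y + W N h k q y := by
  unfold W
  rw [← Finset.sum_add_distrib]
  exact Finset.sum_congr rfl fun n _ => by ring

theorem W_smul (c : ℝ) (g : Finset α → ℝ) (k : ℕ) (q : Finset α) (y : ℝ) :
    W N (fun n => c * g n) k q y = c * W N g k q y := by
  unfold W
  rw [Finset.mul_sum]
  exact Finset.sum_congr rfl fun n _ => by ring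

variable {ρ δ : ℝ}

theorem W_log (hA : AxA N ρ δ) (g : Finset α → ℝ) (k : ℕ) (q : Finset α) (y : ℝ) (hy : 1 ≤ y) :
    W N (fun n => g n * Real.log (nS N n)) k q y =
      Real.log y * W N g k q y - W N g (k + 1) q y := by
  unfold W
  rw [Finset.mul_sum, ← Finset.sum_sub_distrib]
  refine Finset.sum_congr rfl fun n _ => ?_
  have hn0 := (hA.nS_pos n).ne'
  have hy0 : y ≠ 0 := by linarith
  have e1 : Real.log (nS N n) = Real.log y - Real.log (y / nS N n) := by
    rw [Real.log_div hy0 hn0]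
    ring
  beta_reduce
  rw [e1, pow_succ]
  ring

/-- the estimate of a weighted smoothed sum -/
def Est (ρ : ℝ) (g : Finset α → ℝ) (e : ℕ) (a : ℕ → ℝ) : Prop :=
  ∀ k : ℕ, 5 ≤ k → ∃ C : ℝ, 0 < C ∧ ∀ (q : Finset α) (y : ℝ), Ad N q → 1 ≤ y →
    |W N g k q y - Hq N q / ρ ^ 2 * a k * Real.log y ^ (k + e - 2)| ≤
      C * Ef N q ^ 2 * (1 + Real.log y) ^ (k + e - 3)

theorem one_le_Ef (q : Finset α) : 1 ≤ Ef N q := by
  unfold Ef
  have h : ∀ p ∈ q, (1 : ℝ) ≤ 1 + 30 / Real.sqrt (N p) := fun p _ => by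
    have : 0 ≤ 30 / Real.sqrt (N p : ℝ) := by positivity
    linarith
  calc (1 : ℝ) = ∏ _p ∈ q, (1 : ℝ) := by simp
    _ ≤ _ := Finset.prod_le_prod (fun _ _ => zero_le_one) h

theorem est_one (hA : AxA N ρ δ) (hBK : T_BK) :
    Est N ρ (fun _ => 1) 0 (fun k => (k : ℝ) * (k - 1)) := by
  intro k hk
  obtain ⟨C, hC, h⟩ := hBK α N ρ δ hA k hk
  refine ⟨C, hC, fun q y h2 hy => ?_⟩
  have e1 : W N (fun _ => 1) k q y = Bk N k q y := by
    unfold W Bk
    exact Finset.sum_congr rfl fun n _ => by ring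
  have e2 : Hq N q / ρ ^ 2 * ((k : ℝ) * (k - 1)) = Hq N q * (k * (k - 1) / ρ ^ 2) := by ring
  rw [e1, Nat.add_zero, e2]
  refine (h q y h2 hy).trans ?_
  have h1 := one_le_Ef N q
  have hU : 0 ≤ Real.log y := Real.log_nonneg hy
  have h3 : Ef N q ≤ Ef N q ^ 2 := by nlinarith
  have h4 : 0 ≤ (1 + Real.log y) ^ (k - 3) := by positivity
  exact mul_le_mul_of_nonneg_right (mul_le_mul_of_nonneg_left h3 hC.le) h4

theorem est_ve (hA : AxA N ρ δ) (hVS : T_VS) : Est N ρ (fun n => ve N n) 2 (fun _ => -2) := by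
  intro k hk
  obtain ⟨C, hC, h⟩ := hVS α N ρ δ hA k hk
  refine ⟨C, hC, fun q y h2 hy => ?_⟩
  have e1 : k + 2 - 2 = k := by omega
  have e2 : k + 2 - 3 = k - 1 := by omega
  rw [e1, e2]
  have h3 := h q y h2 hy
  have e3 : W N (fun n => ve N n) k q y - Hq N q / ρ ^ 2 * (-2) * Real.log y ^ k =
      W N (fun n => ve N n) k q y + 2 / ρ ^ 2 * Hq N q * Real.log y ^ k := by
    ring
  rw [e3]
  exact h3

theorem est_log (hA : AxA N ρ δ) {g : Finset α → ℝ} {e : ℕ} {a : ℕ → ℝ} (h : Est N ρ g e a) :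
    Est N ρ (fun n => g n * Real.log (nS N n)) (e + 1) (fun k => a k - a (k + 1)) := by
  intro k hk
  obtain ⟨C, hC, h1⟩ := h k hk
  obtain ⟨C', hC', h2⟩ := h (k + 1) (by omega)
  refine ⟨C + C', by linarith, fun q y h2q hy => ?_⟩
  have hU : 0 ≤ Real.log y := Real.log_nonneg hy
  have e1 : k + (e + 1) - 2 = (k + e - 2) + 1 := by omega
  have e2 : k + (e + 1) - 3 = (k + e - 3) + 1 := by omega
  have e3 : k + 1 + e - 2 = (k + e - 2) + 1 := by omega
  have e4 : k + 1 + e - 3 = (k + e - 3) + 1 := by omega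
  have b1 := h1 q y h2q hy
  have b2 := h2 q y h2q hy
  rw [e3, e4] at b2
  rw [W_log N hA g k q y hy, e1, e2]
  have e5 : Real.log y * W N g k q y - W N g (k + 1) q y -
      Hq N q / ρ ^ 2 * (a k - a (k + 1)) * Real.log y ^ (k + e - 2 + 1) =
      Real.log y * (W N g k q y - Hq N q / ρ ^ 2 * a k * Real.log y ^ (k + e - 2)) -
      (W N g (k + 1) q y - Hq N q / ρ ^ 2 * a (k + 1) * Real.log y ^ (k + e - 2 + 1)) := by
    rw [pow_succ]
    ring
  rw [e5]
  refine (abs_sub _ _).trans ?_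
  rw [abs_mul, abs_of_nonneg hU]
  have h5 : 0 ≤ C * Ef N q ^ 2 * (1 + Real.log y) ^ (k + e - 3) := by positivity
  have h6 : Real.log y * |W N g k q y - Hq N q / ρ ^ 2 * a k * Real.log y ^ (k + e - 2)| ≤
      (1 + Real.log y) * (C * Ef N q ^ 2 * (1 + Real.log y) ^ (k + e - 3)) :=
    mul_le_mul (by linarith) b1 (abs_nonneg _) (by linarith)
  have e6 : (C + C') * Ef N q ^ 2 * (1 + Real.log y) ^ (k + e - 3 + 1) =
      (1 + Real.log y) * (C * Ef N q ^ 2 * (1 + Real.log y) ^ (k + e - 3)) +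
      C' * Ef N q ^ 2 * (1 + Real.log y) ^ (k + e - 3 + 1) := by
    rw [pow_succ]
    ring
  rw [e6]
  exact add_le_add h6 b2

theorem est_add {g h : Finset α → ℝ} {e : ℕ} {a b : ℕ → ℝ} (h1 : Est N ρ g e a)
    (h2 : Est N ρ h e b) : Est N ρ (fun n => g n + h n) e (fun k => a k + b k) := by
  intro k hk
  obtain ⟨C, hC, h1⟩ := h1 k hk
  obtain ⟨C', hC', h2⟩ := h2 k hk
  refine ⟨C + C', by linarith, fun q y h2q hy => ?_⟩
  have b1 := h1 q y h2q hy
  have b2 := h2 q y h2q hy
  rw [W_add]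
  have e5 : W N g k q y + W N h k q y - Hq N q / ρ ^ 2 * (a k + b k) * Real.log y ^ (k + e - 2) =
      (W N g k q y - Hq N q / ρ ^ 2 * a k * Real.log y ^ (k + e - 2)) +
      (W N h k q y - Hq N q / ρ ^ 2 * b k * Real.log y ^ (k + e - 2)) := by ring
  rw [e5]
  refine (abs_add_le _ _).trans ?_
  have e6 : (C + C') * Ef N q ^ 2 * (1 + Real.log y) ^ (k + e - 3) =
      C * Ef N q ^ 2 * (1 + Real.log y) ^ (k + e - 3) +
      C' * Ef N q ^ 2 * (1 + Real.log y) ^ (k + e - 3) := by ring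
  rw [e6]
  exact add_le_add b1 b2

theorem est_smul (c : ℝ) {g : Finset α → ℝ} {e : ℕ} {a : ℕ → ℝ} (h1 : Est N ρ g e a) :
    Est N ρ (fun n => c * g n) e (fun k => c * a k) := by
  intro k hk
  obtain ⟨C, hC, h1⟩ := h1 k hk
  refine ⟨(|c| + 1) * C, by positivity, fun q y h2q hy => ?_⟩
  have b1 := h1 q y h2q hy
  have hU : 0 ≤ Real.log y := Real.log_nonneg hy
  rw [W_smul]
  have e5 : c * W N g k q y - Hq N q / ρ ^ 2 * (c * a k) * Real.log y ^ (k + e - 2) =
      c * (W N g k q y - Hq N q / ρ ^ 2 * a k * Real.log y ^ (k + e - 2)) := by ring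
  rw [e5, abs_mul]
  have h5 : 0 ≤ C * Ef N q ^ 2 * (1 + Real.log y) ^ (k + e - 3) := by positivity
  calc |c| * |W N g k q y - Hq N q / ρ ^ 2 * a k * Real.log y ^ (k + e - 2)| ≤
      (|c| + 1) * (C * Ef N q ^ 2 * (1 + Real.log y) ^ (k + e - 3)) :=
        mul_le_mul (by linarith) b1 (abs_nonneg _) (by positivity)
    _ = _ := by ring

open Classical in
theorem Ef_union {m n : Finset α} (h : Disjoint m n) : Ef N (m ∪ n) = Ef N m * Ef N n := by
  unfold Ef
  exact Finset.prod_union h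

open Classical in
/-- the sum over the mollifier in terms of the weighted smoothed sums -/
theorem sum_eq (hA : AxA N ρ δ) (g : Finset α → ℝ) (P : Polynomial ℝ) (R : Finset α) (M : ℝ)
    (d : Finset α) (hM : 2 ≤ M) (hdR : Disjoint d R) :
    ∑ S ∈ (SM N M).filter (fun S => Disjoint S d),
      cm N P M R (d ∪ S) * 2 ^ S.card / nS N S * g S =
    (-1) ^ d.card * ∑ k ∈ Finset.range (P.natDegree + 1),
      P.coeff k * (Real.log M ^ k)⁻¹ * W N g k (d ∪ R) (M / nS N d) := by
  have hd0 := hA.nS_pos d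
  have hd1 : (1 : ℝ) ≤ nS N d := by exact_mod_cast hA.one_le_nS d
  have hM0 : 0 < M := by linarith
  have hsub : (SM N (M / nS N d)).filter (fun S => Disjoint S (d ∪ R)) ⊆
      (SM N M).filter (fun S => Disjoint S d) := by
    intro n hn
    rw [Finset.mem_filter, hA.mem_SM] at hn ⊢
    refine ⟨hn.1.trans (div_le_self hM0.le hd1), ?_⟩
    exact (Finset.disjoint_union_right.1 hn.2).1
  rw [← Finset.sum_subset hsub]
  · have e1 : ∀ n ∈ (SM N (M / nS N d)).filter (fun S => Disjoint S (d ∪ R)),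
        cm N P M R (d ∪ n) * 2 ^ n.card / nS N n * g n =
        ∑ k ∈ Finset.range (P.natDegree + 1), (-1) ^ d.card * (P.coeff k * (Real.log M ^ k)⁻¹ *
          ((-2) ^ n.card / (nS N n : ℝ) * g n * Real.log (M / nS N d / nS N n) ^ k)) := by
      intro n hn
      rw [Finset.mem_filter, hA.mem_SM] at hn
      obtain ⟨hle, hn3⟩ := hn
      obtain ⟨hnd, hnR⟩ := Finset.disjoint_union_right.1 hn3
      have hu := nS_union (N := N) hnd.symm
      have hle2 : ((nS N (d ∪ n) : ℕ) : ℝ) ≤ M := by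
        rw [hu]
        push_cast
        rw [le_div_iff₀ hd0] at hle
        linarith
      have hcop : Disjoint (d ∪ n) R := Finset.disjoint_union_left.2 ⟨hdR, hnR⟩
      have e2 : cm N P M R (d ∪ n) = (-1) ^ d.card * (-1) ^ n.card *
          ∑ k ∈ Finset.range (P.natDegree + 1),
            P.coeff k * (Real.log (M / nS N d / nS N n) / Real.log M) ^ k := by
        unfold cm
        rw [if_pos ⟨hle2, hcop⟩, Finset.card_union_of_disjoint hnd.symm, pow_add,
          Polynomial.eval_eq_sum_range, hu]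
        push_cast
        rw [div_div]
      rw [e2, Finset.mul_sum, Finset.sum_mul, Finset.sum_div, Finset.sum_mul]
      refine Finset.sum_congr rfl fun k _ => ?_
      have e3 : (-2 : ℝ) ^ n.card = (-1) ^ n.card * 2 ^ n.card := by
        rw [← mul_pow]
        norm_num
      rw [div_pow, e3]
      ring
    rw [Finset.sum_congr rfl e1, Finset.sum_comm, Finset.mul_sum]
    refine Finset.sum_congr rfl fun k _ => ?_
    unfold W
    rw [← Finset.mul_sum, ← Finset.mul_sum]
  · intro n hn hn'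
    have : cm N P M R (d ∪ n) = 0 := by
      unfold cm
      rw [if_neg]
      rintro ⟨h1, h2⟩
      apply hn'
      rw [Finset.mem_filter, hA.mem_SM] at hn ⊢
      have hnR : Disjoint n R := (Finset.disjoint_union_left.1 h2).2
      refine ⟨?_, Finset.disjoint_union_right.2 ⟨hn.2, hnR⟩⟩
      rw [le_div_iff₀ hd0]
      rw [nS_union hn.2.symm] at h1
      push_cast at h1
      linarith
    rw [this]
    ring

open Classical in
theorem core (hA : AxA N ρ δ) {g : Finset α → ℝ} {e : ℕ} {a : ℕ → ℝ} (h : Est N ρ g e a)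
    (he : e ≤ 3) (P : Polynomial ℝ) (R : Finset α) (hX : Polynomial.X ^ 5 ∣ P) (h2 : Ad N R)
    (Mv : ℝ → ℝ)
    (hMv : ∀ t, ∑ k ∈ Finset.range (P.natDegree + 1), P.coeff k * a k * t ^ (k + e - 2) = Mv t) :
    ∃ C : ℝ, 0 < C ∧ ∀ (M : ℝ) (d : Finset α), 2 ≤ M → (nS N d : ℝ) ≤ M → Disjoint d R →
      |∑ S ∈ (SM N M).filter (fun S => Disjoint S d),
        cm N P M R (d ∪ S) * 2 ^ S.card / nS N S * g S -
        (-1) ^ d.card * (Hq N (d ∪ R) / ρ ^ 2) * Real.log M ^ ((e : ℤ) - 2) *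
          Mv (Real.log (M / nS N d) / Real.log M)| ≤
      C * Ef N d ^ 2 * Real.log M ^ ((e : ℤ) - 3) := by
  have h' : ∀ k : ℕ, ∃ C : ℝ, 0 < C ∧ (5 ≤ k → ∀ (q : Finset α) (y : ℝ), Ad N q → 1 ≤ y →
    |W N g k q y - Hq N q / ρ ^ 2 * a k * Real.log y ^ (k + e - 2)| ≤
      C * Ef N q ^ 2 * (1 + Real.log y) ^ (k + e - 3)) := by
    intro k
    by_cases hk : 5 ≤ k
    · obtain ⟨C, hC, h3⟩ := h k hk
      exact ⟨C, hC, fun _ => h3⟩
    · exact ⟨1, one_pos, fun h => absurd h hk⟩
  choose Cf hCf0 hCf using h'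
  have hcoef : ∀ k, k < 5 → P.coeff k = 0 := Polynomial.X_pow_dvd_iff.1 hX
  refine ⟨∑ k ∈ Finset.range (P.natDegree + 1), |P.coeff k| * (Cf k * Ef N R ^ 2 * 3 ^ k) + 1,
    ?_, ?_⟩
  · have : 0 ≤ ∑ k ∈ Finset.range (P.natDegree + 1), |P.coeff k| * (Cf k * Ef N R ^ 2 * 3 ^ k) :=
      Finset.sum_nonneg fun k _ => by
        have := hCf0 k
        positivity
    linarith
  intro M d hM hdM hdR
  have hd0 := hA.nS_pos d
  have hd1 : (1 : ℝ) ≤ nS N d := by exact_mod_cast hA.one_le_nS d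
  have hM0 : 0 < M := by linarith
  have hl : 1 / 2 < Real.log M := by
    have h1 : Real.log 2 ≤ Real.log M := Real.log_le_log (by norm_num) hM
    have h2 := Real.log_two_gt_d9
    linarith
  have hl0 : 0 < Real.log M := by linarith
  have hy : 1 ≤ M / nS N d := (one_le_div hd0).2 hdM
  obtain ⟨U, hU⟩ : ∃ U, U = Real.log (M / nS N d) := ⟨_, rfl⟩
  obtain ⟨l, hldef⟩ : ∃ l, l = Real.log M := ⟨_, rfl⟩
  rw [← hldef] at hl hl0
  rw [← hldef, ← hU]
  have hU0 : 0 ≤ U := by rw [hU]; exact Real.log_nonneg hy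
  have hUl : U ≤ l := by
    rw [hU, hldef]
    apply Real.log_le_log (by positivity)
    exact div_le_self hM0.le hd1
  have h3l : 1 + U ≤ 3 * l := by linarith
  have hE1 := one_le_Ef N d
  have hE2 := one_le_Ef N R
  have hAd : Ad N (d ∪ R) := fun p hp => Finset.mem_union_right _ (h2 p hp)
  rw [sum_eq N hA g P R M d hM hdR, ← hMv, ← hldef]
  have e1 : (-1) ^ d.card * (Hq N (d ∪ R) / ρ ^ 2) * l ^ ((e : ℤ) - 2) *
      ∑ k ∈ Finset.range (P.natDegree + 1), P.coeff k * a k * (U / l) ^ (k + e - 2) =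
      (-1) ^ d.card * ∑ k ∈ Finset.range (P.natDegree + 1), P.coeff k * (l ^ k)⁻¹ *
        (Hq N (d ∪ R) / ρ ^ 2 * a k * U ^ (k + e - 2)) := by
    rw [mul_assoc, mul_assoc, Finset.mul_sum, Finset.mul_sum]
    congr 1
    refine Finset.sum_congr rfl fun k _ => ?_
    rcases Nat.lt_or_ge k 5 with hk | hk
    · rw [hcoef k hk]
      ring
    · have e2 : l ^ ((e : ℤ) - 2) = l ^ (k + e - 2) * (l ^ k)⁻¹ := by
        rw [← zpow_natCast l (k + e - 2), ← zpow_natCast l k, ← zpow_neg, ← zpow_add₀ hl0.ne']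
        congr 1
        omega
      have e3 : (U / l) ^ (k + e - 2) * l ^ (k + e - 2) = U ^ (k + e - 2) := by
        rw [← mul_pow, div_mul_cancel₀ _ hl0.ne']
      rw [e2, ← e3]
      ring
  rw [e1, ← mul_sub, ← Finset.sum_sub_distrib, abs_mul]
  have e3 : ∀ k ∈ Finset.range (P.natDegree + 1),
      |P.coeff k * (l ^ k)⁻¹ * W N g k (d ∪ R) (M / nS N d) -
        P.coeff k * (l ^ k)⁻¹ * (Hq N (d ∪ R) / ρ ^ 2 * a k * U ^ (k + e - 2))| ≤
      |P.coeff k| * (Cf k * Ef N R ^ 2 * 3 ^ k) * (Ef N d ^ 2 * l ^ ((e : ℤ) - 3)) := by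
    intro k _
    rcases Nat.lt_or_ge k 5 with hk | hk
    · rw [hcoef k hk]
      simp
    · rw [← mul_sub, abs_mul, abs_mul, abs_of_pos (a := (l ^ k)⁻¹) (by positivity), mul_assoc,
        mul_assoc |P.coeff k|]
      refine mul_le_mul_of_nonneg_left ?_ (abs_nonneg _)
      have b1 := hCf k hk (d ∪ R) (M / nS N d) hAd hy
      rw [← hU] at b1
      have b4 : (1 + U) ^ (k + e - 3) ≤ 3 ^ k * l ^ (k + e - 3) := by
        calc (1 + U) ^ (k + e - 3) ≤ (3 * l) ^ (k + e - 3) :=
              pow_le_pow_left₀ (by linarith) h3l _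
          _ = 3 ^ (k + e - 3) * l ^ (k + e - 3) := mul_pow _ _ _
          _ ≤ _ := by
            refine mul_le_mul_of_nonneg_right ?_ (by positivity)
            exact pow_le_pow_right₀ (by norm_num) (by omega)
      have e4 : l ^ ((e : ℤ) - 3) = (l ^ k)⁻¹ * l ^ (k + e - 3) := by
        rw [← zpow_natCast l (k + e - 3), ← zpow_natCast l k, ← zpow_neg, ← zpow_add₀ hl0.ne']
        congr 1
        omega
      have hC0 := hCf0 k
      have hU1 : 0 ≤ (1 + U) ^ (k + e - 3) := by positivity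
      calc (l ^ k)⁻¹ * |W N g k (d ∪ R) (M / nS N d) -
            Hq N (d ∪ R) / ρ ^ 2 * a k * U ^ (k + e - 2)| ≤
          (l ^ k)⁻¹ * (Cf k * Ef N (d ∪ R) ^ 2 * (1 + U) ^ (k + e - 3)) :=
            mul_le_mul_of_nonneg_left b1 (by positivity)
        _ ≤ (l ^ k)⁻¹ * (Cf k * (Ef N d * Ef N R) ^ 2 * (3 ^ k * l ^ (k + e - 3))) := by
            refine mul_le_mul_of_nonneg_left ?_ (by positivity)
            rw [Ef_union N hdR]
            exact mul_le_mul_of_nonneg_left b4 (by positivity)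
        _ = _ := by
            rw [e4]
            ring
  have e5 := (Finset.abs_sum_le_sum_abs (fun k => P.coeff k * (l ^ k)⁻¹ *
        W N g k (d ∪ R) (M / nS N d) -
        P.coeff k * (l ^ k)⁻¹ * (Hq N (d ∪ R) / ρ ^ 2 * a k * U ^ (k + e - 2)))
        (Finset.range (P.natDegree + 1))).trans (Finset.sum_le_sum e3)
  rw [← Finset.sum_mul] at e5
  have e7 : |(-1 : ℝ) ^ d.card| = 1 := by rw [abs_pow, abs_neg, abs_one, one_pow]
  rw [e7, one_mul]
  refine e5.trans ?_
  rw [add_mul, add_mul, mul_assoc _ (Ef N d ^ 2) (l ^ ((e : ℤ) - 3))]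
  have : 0 ≤ 1 * Ef N d ^ 2 * l ^ ((e : ℤ) - 3) := by positivity
  linarith

end Bas

theorem deriv_eq (P : Polynomial ℝ) : P.derivative =
    ∑ k ∈ Finset.range (P.natDegree + 1), Polynomial.C (P.coeff k * k) * Polynomial.X ^ (k - 1) := by
  conv_lhs => rw [P.as_sum_range_C_mul_X_pow]
  rw [Polynomial.derivative_sum]
  exact Finset.sum_congr rfl fun k _ => Polynomial.derivative_C_mul_X_pow _ _

theorem deriv2_eq (P : Polynomial ℝ) : P.derivative.derivative =
    ∑ k ∈ Finset.range (P.natDegree + 1),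
      Polynomial.C (P.coeff k * k * (k - 1 : ℕ)) * Polynomial.X ^ (k - 1 - 1) := by
  rw [congrArg (fun Q : Polynomial ℝ => Polynomial.derivative Q) (deriv_eq P)]
  rw [Polynomial.derivative_sum]
  exact Finset.sum_congr rfl fun k _ => Polynomial.derivative_C_mul_X_pow _ _

theorem sum_deriv (P : Polynomial ℝ) (t : ℝ) :
    ∑ k ∈ Finset.range (P.natDegree + 1), P.coeff k * k * t ^ (k - 1) = P.derivative.eval t := by
  rw [deriv_eq, Polynomial.eval_finsetSum]
  exact Finset.sum_congr rfl fun k _ => by simp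

theorem sum_deriv2 (P : Polynomial ℝ) (t : ℝ) :
    ∑ k ∈ Finset.range (P.natDegree + 1), P.coeff k * (k * (k - 1)) * t ^ (k - 2) =
      P.derivative.derivative.eval t := by
  rw [deriv2_eq, Polynomial.eval_finsetSum]
  refine Finset.sum_congr rfl fun k _ => ?_
  rcases Nat.eq_zero_or_pos k with rfl | hk
  · simp
  · have e1 : k - 1 - 1 = k - 2 := by omega
    rw [e1]
    simp only [Polynomial.eval_mul, Polynomial.eval_C, Polynomial.eval_pow, Polynomial.eval_X]
    push_cast [Nat.cast_sub hk]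
    ring

section Fin

variable {α : Type} (N : α → ℕ) {ρ δ : ℝ}

open Classical in
theorem step (hA : AxA N ρ δ) (i j : ℕ) {e : ℕ} {g : Finset α → ℝ} {a : ℕ → ℝ}
    (h : Est N ρ g e a) (hije : i + j = e) (he : i + j ≤ 3)
    (P : Polynomial ℝ) (R : Finset α) (hX : Polynomial.X ^ 5 ∣ P) (h2 : Ad N R)
    (hMv : ∀ t, ∑ k ∈ Finset.range (P.natDegree + 1), P.coeff k * a k * t ^ (k + (i + j) - 2) =
      Mf P i j t)
    (hmo : ∀ (M : ℝ) (d : Finset α), mo i j (Bd N P M R d) =
      ∑ S ∈ (SM N M).filter (fun S => Disjoint S d),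
        cm N P M R (d ∪ S) * 2 ^ S.card / nS N S * g S) :
    ∃ C : ℝ, 0 < C ∧ (i + j ≤ 3 → ∀ (M : ℝ) (d : Finset α), 2 ≤ M → (nS N d : ℝ) ≤ M →
      Disjoint d R →
      |mo i j (Bd N P M R d) - (-1) ^ d.card * (Hq N (d ∪ R) / ρ ^ 2) *
        Real.log M ^ ((i : ℤ) + j - 2) *
        Mf P i j (Real.log (M / nS N d) / Real.log M)| ≤
        C * Ef N d ^ 2 * Real.log M ^ ((i : ℤ) + j - 3)) := by
  subst hije
  obtain ⟨C, hC, h3⟩ := core N hA h he P R hX h2 (Mf P i j) hMv
  refine ⟨C, hC, fun _ M d hM hdM hdR => ?_⟩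
  have h4 := h3 M d hM hdM hdR
  rw [hmo M d]
  push_cast at h4
  exact h4

end Fin

theorem pf_BAS (hBDM : T_BDM) (hBK : T_BK) (hVS : T_VS) (_hHQ : T_HQ) : T_BAS := by
  classical
  intro α N ρ δ hA P R hX h2
  have h1 := est_one N hA hBK
  have hl1 := est_log N hA h1
  have hl2 := est_log N hA hl1
  have hl3 := est_log N hA hl2
  have hv := est_ve N hA hVS
  have hvl := est_log N hA hv
  have hN1 : ∀ p, 1 ≤ N p := fun p => by have := hA.two p; omega
  have hb : ∀ (M : ℝ) (d : Finset α), _ := fun M d => hBDM α N hN1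
    ((SM N M).filter (fun S => Disjoint S d)) (fun S => cm N P M R (d ∪ S)) (Bd N P M R d) _ rfl rfl
  have key : ∀ i j : ℕ, ∃ C : ℝ, 0 < C ∧ (i + j ≤ 3 → ∀ (M : ℝ) (d : Finset α), 2 ≤ M →
      (nS N d : ℝ) ≤ M → Disjoint d R →
      |mo i j (Bd N P M R d) - (-1) ^ d.card * (Hq N (d ∪ R) / ρ ^ 2) *
        Real.log M ^ ((i : ℤ) + j - 2) *
        Mf P i j (Real.log (M / nS N d) / Real.log M)| ≤
        C * Ef N d ^ 2 * Real.log M ^ ((i : ℤ) + j - 3)) := by
    intro i j
    by_cases hij : i + j ≤ 3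
    swap
    · exact ⟨1, one_pos, fun h => absurd h hij⟩
    have hi : i ≤ 3 := by omega
    have hj : j ≤ 3 := by omega
    interval_cases i <;> interval_cases j
    · -- 0 0
      refine step N hA 0 0 h1 rfl hij P R hX h2 (fun t => ?_) (fun M d => ?_)
      · rw [show Mf P 0 0 t = P.derivative.derivative.eval t by simp [Mf]]
        exact sum_deriv2 P t
      · rw [(hb M d).1]
        exact Finset.sum_congr rfl fun n _ => by ring
    · -- 0 1
      refine step N hA 0 1 (est_smul N (1 / 2) hl1) rfl hij P R hX h2 (fun t => ?_)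
        (fun M d => ?_)
      · rw [show Mf P 0 1 t = -P.derivative.eval t by simp [Mf], ← sum_deriv,
          ← Finset.sum_neg_distrib]
        refine Finset.sum_congr rfl fun k _ => ?_
        have e1 : k + (0 + 1) - 2 = k - 1 := by omega
        rw [e1]
        push_cast
        ring
      · rw [(hb M d).2.2.1, Finset.mul_sum]
        exact Finset.sum_congr rfl fun n _ => by ring
    · -- 0 2
      refine step N hA 0 2 (est_smul N (1 / 4) (est_add N hl2 hv)) rfl hij P R hX h2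
        (fun t => ?_) (fun M d => ?_)
      · rw [show Mf P 0 2 t = 0 by simp [Mf]]
        refine Finset.sum_eq_zero fun k _ => ?_
        push_cast
        ring
      · rw [(hb M d).2.2.2.2.2.1, Finset.mul_sum]
        exact Finset.sum_congr rfl fun n _ => by ring
    · -- 0 3
      refine step N hA 0 3 (est_smul N (1 / 8) (est_add N hl3 (est_smul N 3 hvl))) rfl hij P R hX
        h2 (fun t => ?_) (fun M d => ?_)
      · rw [show Mf P 0 3 t = 0 by simp [Mf]]
        refine Finset.sum_eq_zero fun k _ => ?_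
        push_cast
        ring
      · rw [(hb M d).2.2.2.2.2.2.2.1, Finset.mul_sum]
        exact Finset.sum_congr rfl fun n _ => by ring
    · -- 1 0
      refine step N hA 1 0 (est_smul N (1 / 2) hl1) rfl hij P R hX h2 (fun t => ?_)
        (fun M d => ?_)
      · rw [show Mf P 1 0 t = -P.derivative.eval t by simp [Mf], ← sum_deriv,
          ← Finset.sum_neg_distrib]
        refine Finset.sum_congr rfl fun k _ => ?_
        have e1 : k + (1 + 0) - 2 = k - 1 := by omega
        rw [e1]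
        push_cast
        ring
      · rw [(hb M d).2.1, Finset.mul_sum]
        exact Finset.sum_congr rfl fun n _ => by ring
    · -- 1 1
      refine step N hA 1 1 (est_smul N (1 / 4) (est_add N hl2 (est_smul N (-1) hv))) rfl hij P R
        hX h2 (fun t => ?_) (fun M d => ?_)
      · rw [show Mf P 1 1 t = P.eval t by simp [Mf], Polynomial.eval_eq_sum_range]
        refine Finset.sum_congr rfl fun k _ => ?_
        have e1 : k + (1 + 1) - 2 = k := by omega
        rw [e1]
        push_cast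
        ring
      · rw [(hb M d).2.2.2.1, Finset.mul_sum]
        exact Finset.sum_congr rfl fun n _ => by ring
    · -- 1 2
      refine step N hA 1 2 (est_smul N (1 / 8) (est_add N hl3 (est_smul N (-1) hvl))) rfl hij P R
        hX h2 (fun t => ?_) (fun M d => ?_)
      · rw [show Mf P 1 2 t = 0 by simp [Mf]]
        refine Finset.sum_eq_zero fun k _ => ?_
        push_cast
        ring
      · rw [(hb M d).2.2.2.2.2.2.2.2.2, Finset.mul_sum]
        exact Finset.sum_congr rfl fun n _ => by ring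
    · exact absurd hij (by norm_num)
    · -- 2 0
      refine step N hA 2 0 (est_smul N (1 / 4) (est_add N hl2 hv)) rfl hij P R hX h2
        (fun t => ?_) (fun M d => ?_)
      · rw [show Mf P 2 0 t = 0 by simp [Mf]]
        refine Finset.sum_eq_zero fun k _ => ?_
        push_cast
        ring
      · rw [(hb M d).2.2.2.2.1, Finset.mul_sum]
        exact Finset.sum_congr rfl fun n _ => by ring
    · -- 2 1
      refine step N hA 2 1 (est_smul N (1 / 8) (est_add N hl3 (est_smul N (-1) hvl))) rfl hij P R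
        hX h2 (fun t => ?_) (fun M d => ?_)
      · rw [show Mf P 2 1 t = 0 by simp [Mf]]
        refine Finset.sum_eq_zero fun k _ => ?_
        push_cast
        ring
      · rw [(hb M d).2.2.2.2.2.2.2.2.1, Finset.mul_sum]
        exact Finset.sum_congr rfl fun n _ => by ring
    · exact absurd hij (by norm_num)
    · exact absurd hij (by norm_num)
    · -- 3 0
      refine step N hA 3 0 (est_smul N (1 / 8) (est_add N hl3 (est_smul N 3 hvl))) rfl hij P R hX
        h2 (fun t => ?_) (fun M d => ?_)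
      · rw [show Mf P 3 0 t = 0 by simp [Mf]]
        refine Finset.sum_eq_zero fun k _ => ?_
        push_cast
        ring
      · rw [(hb M d).2.2.2.2.2.2.1, Finset.mul_sum]
        exact Finset.sum_congr rfl fun n _ => by ring
    · exact absurd hij (by norm_num)
    · exact absurd hij (by norm_num)
    · exact absurd hij (by norm_num)
  choose Cf hC0 hC using key
  refine ⟨∑ i ∈ Finset.range 4, ∑ j ∈ Finset.range 4, Cf i j, ?_, ?_⟩
  · exact Finset.sum_pos (fun i _ => Finset.sum_pos (fun j _ => hC0 i j) ⟨0, by simp⟩)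
      ⟨0, by simp⟩
  intro M d i j hM hdM hdR hij
  refine (hC i j hij M d hM hdM hdR).trans ?_
  have hl0 : 0 < Real.log M := Real.log_pos (by linarith)
  have h3 : Cf i j ≤ ∑ i ∈ Finset.range 4, ∑ j ∈ Finset.range 4, Cf i j := by
    refine le_trans ?_ (Finset.single_le_sum
      (f := fun i => ∑ j ∈ Finset.range 4, Cf i j)
      (fun i _ => Finset.sum_nonneg fun j _ => (hC0 i j).le)
      (Finset.mem_range.2 (by omega : i < 4)))
    exact Finset.single_le_sum (f := fun j => Cf i j) (fun j _ => (hC0 i j).le)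
      (Finset.mem_range.2 (by omega : j < 4))
  have h4 : 0 ≤ Real.log M ^ ((i : ℤ) + j - 3) := by positivity
  exact mul_le_mul_of_nonneg_right (mul_le_mul_of_nonneg_right h3 (by positivity)) h4

end Pool.Agent.H10.NVK
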