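import Pool.Agent.H10.NVK.SMK

/-!
# From the average of the unfolded sums to the second moment: preparations (module M_SMC)
-/

set_option autoImplicit false
set_option linter.unusedSectionVars false

open MeasureTheory Set Filter NumberField NumberField.InfinitePlace
open scoped Real

namespace Pool.Agent.H10.NVK

open Pool.Agent.H23.NVK
open Pool.Agent.H31.CN (GR E lin mo Mt GR_induction lin_E)
open Pool.Agent.H65.CM4 (Pl dg nm rv)
open Pool.Agent.H61.NVK (Vk kp c0 zf sD)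
open Pool.Agent.H89.NV (PrI np WW wbar wN wF dR qN RA sd em tp US wt Nw good Dis bD GW kf S2 DM
  WD idS ni q4 bs T_AVG T_WDN T_UFC T_SM2)

section Places

variable {k : Type} [Field k] [NumberField k] [IsTotallyReal k]

theorem em_fin (B : ℝ) : {D : 𝓞 k | ∀ v, |em D v| ≤ B}.Finite := by
  have h := NumberField.Embeddings.finite_of_norm_le k ℂ B
  refine Set.Finite.subset (h.preimage (f := fun D : 𝓞 k => (D : k))
    (RingOfIntegers.coe_injective.injOn)) ?_
  intro D hD
  refine ⟨RingOfIntegers.isIntegral_coe D, fun φ => ?_⟩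
  have h1 := hD (InfinitePlace.mk φ)
  have h2 : ‖φ (D : k)‖ = |em D (InfinitePlace.mk φ)| := by
    unfold Pool.Agent.H89.NV.em rv
    rw [← InfinitePlace.apply φ (D : k), ← InfinitePlace.norm_embedding_eq,
      ← embedding_of_isReal_apply (IsTotallyReal.isReal (InfinitePlace.mk φ)),
      Complex.norm_real, Real.norm_eq_abs]
  rw [h2]
  exact h1

theorem dg_pos : 0 < dg k := Module.finrank_pos

theorem card_Pl : Fintype.card (Pl k) = dg k := by
  unfold dg
  rw [IsTotallyReal.finrank, card_eq_nrRealPlaces_add_nrComplexPlaces,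
    IsTotallyReal.nrComplexPlaces_eq_zero, add_zero]

theorem scale (F : (Pl k → ℝ) → ℝ) {T : ℝ} (hT : 0 < T) :
    ∫ d : Pl k → ℝ, F (fun v => d v / T) = T ^ dg k * ∫ u, F u := by
  have h := Measure.integral_comp_inv_smul (volume : Measure (Pl k → ℝ)) F T
  have e : ∀ d : Pl k → ℝ, T⁻¹ • d = fun v => d v / T := by
    intro d
    funext v
    rw [Pi.smul_apply, smul_eq_mul, div_eq_inv_mul]
  simp only [e] at h
  rw [h, Module.finrank_fintype_fun_eq_card, card_Pl, abs_of_pos (by positivity), smul_eq_mul]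

variable {G : (Pl k → ℝ) → ℝ} {η : ℝ}

theorem G_supp (hG : GW η G) {T : ℝ} (hT : 0 < T) {d : Pl k → ℝ}
    (h : G (fun v => d v / T) ≠ 0) (v : Pl k) : η * T ≤ d v ∧ d v ≤ T / η := by
  have h1 : d v / T ∈ Icc η (1 / η) := by
    by_contra h2
    exact h (hG.supp _ ⟨v, h2⟩)
  have hη := hG.pos
  rw [mem_Icc, le_div_iff₀ hT, div_le_iff₀ hT] at h1
  refine ⟨h1.1, h1.2.trans (le_of_eq ?_)⟩
  ring

theorem G_cont (hG : GW η G) (T : ℝ) : Continuous fun d : Pl k → ℝ => G (fun v => d v / T) :=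
  hG.smooth.continuous.comp (continuous_pi fun v => by fun_prop)

theorem nm_pos {f : Ideal (𝓞 k)} (hf : f ≠ ⊥) : 0 < nm f := by
  unfold nm
  have : Ideal.absNorm f ≠ 0 := by
    rw [Ne, Ideal.absNorm_eq_zero_iff]
    exact hf
  exact_mod_cast Nat.pos_of_ne_zero this

theorem int_box (hG : GW η G) {T : ℝ} (hT : 0 < T) {F : (Pl k → ℝ) → ℝ}
    (hF : ContinuousOn F {d | ∀ v, 0 < d v}) :
    Integrable fun d : Pl k → ℝ => G (fun v => d v / T) * F d := by
  have hη := hG.pos
  have hsub : (Icc (fun _ => η * T) (fun _ => T / η) : Set (Pl k → ℝ)) ⊆ {d | ∀ v, 0 < d v} := by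
    intro d hd v
    have := hd.1 v
    have h1 : 0 < η * T := by positivity
    exact h1.trans_le this
  have hc : ContinuousOn (fun d : Pl k → ℝ => G (fun v => d v / T) * F d)
      (Icc (fun _ => η * T) (fun _ => T / η)) :=
    (G_cont hG T).continuousOn.mul (hF.mono hsub)
  refine (hc.integrableOn_compact isCompact_Icc).integrable_of_forall_notMem_eq_zero fun d hd => ?_
  have : G (fun v => d v / T) = 0 := by
    by_contra hh
    exact hd ⟨fun v => (G_supp hG hT hh v).1, fun v => (G_supp hG hT hh v).2⟩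
  rw [this, zero_mul]

theorem log_sd {f : Ideal (𝓞 k)} (hf : f ≠ ⊥) {d : Pl k → ℝ} (hd : ∀ v, 0 < d v) :
    Real.log (sd f d) = 1 / 2 * ∑ v, Real.log (d v) - Real.log (nm f) := by
  unfold sd sD
  have h1 : 0 < ∏ v : Pl k, d v := Finset.prod_pos fun v _ => hd v
  rw [Real.log_div (Real.sqrt_pos.2 h1).ne' (nm_pos hf).ne', Real.log_sqrt h1.le,
    Real.log_prod (fun v _ => (hd v).ne')]
  ring

theorem log_sd_cont {f : Ideal (𝓞 k)} (hf : f ≠ ⊥) :
    ContinuousOn (fun d : Pl k → ℝ => Real.log (sd f d)) {d | ∀ v, 0 < d v} := by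
  have h : ContinuousOn (fun d : Pl k → ℝ => 1 / 2 * ∑ v, Real.log (d v) - Real.log (nm f))
      {d | ∀ v, 0 < d v} := by
    refine ContinuousOn.sub (continuousOn_const.mul ?_) continuousOn_const
    refine continuousOn_finsetSum _ fun v _ => ?_
    exact ContinuousOn.log (continuous_apply v).continuousOn fun d hd => (hd v).ne'
  exact h.congr fun d hd => log_sd hf hd

theorem log_near (hG : GW η G) {f : Ideal (𝓞 k)} (hf : f ≠ ⊥) {T : ℝ} (hT : 0 < T)
    {d : Pl k → ℝ} (h : G (fun v => d v / T) ≠ 0) :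
    |Real.log (sd f d) - 1 / 2 * Real.log (T ^ dg k)| ≤
      dg k * |Real.log η| + |Real.log (nm f)| := by
  have hη := hG.pos
  have hd : ∀ v, 0 < d v := fun v =>
    (by positivity : 0 < η * T).trans_le (G_supp hG hT h v).1
  rw [log_sd hf hd, Real.log_pow]
  have h1 : ∀ v, |Real.log (d v) - Real.log T| ≤ |Real.log η| := by
    intro v
    obtain ⟨h2, h3⟩ := G_supp hG hT h v
    have h4 := Real.log_le_log (by positivity) h2
    have h5 := Real.log_le_log (hd v) h3
    rw [Real.log_mul hη.ne' hT.ne'] at h4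
    rw [Real.log_div hT.ne' hη.ne'] at h5
    have h6 := neg_abs_le (Real.log η)
    have h7 := le_abs_self (Real.log η)
    rw [abs_le]
    constructor <;> linarith
  have h2 : ∑ v : Pl k, (Real.log (d v) - Real.log T) =
      (∑ v : Pl k, Real.log (d v)) - dg k * Real.log T := by
    rw [Finset.sum_sub_distrib, Finset.sum_const, Finset.card_univ, card_Pl, nsmul_eq_mul]
  have h3 : |∑ v : Pl k, (Real.log (d v) - Real.log T)| ≤ dg k * |Real.log η| := by
    refine (Finset.abs_sum_le_sum_abs _ _).trans ((Finset.sum_le_sum fun v _ => h1 v).trans ?_)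
    rw [Finset.sum_const, Finset.card_univ, card_Pl, nsmul_eq_mul]
  have e : 1 / 2 * ∑ v : Pl k, Real.log (d v) - Real.log (nm f) -
      1 / 2 * (dg k * Real.log T) =
      1 / 2 * (∑ v : Pl k, (Real.log (d v) - Real.log T)) + -Real.log (nm f) := by
    rw [h2]
    ring
  rw [e]
  refine (abs_add_le _ _).trans ?_
  rw [abs_neg, abs_mul, abs_of_pos (by norm_num : (0 : ℝ) < 1 / 2)]
  have h4 : 0 ≤ (dg k : ℝ) * |Real.log η| := by positivity
  linarith

end Places

section PhC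

variable {α : Type} {N : α → ℕ} {V : ℝ → ℝ} {c : ℝ}

theorem Ph_cont (h0 : Continuous (S0 N V)) (h1 : Continuous (S1 N V)) (r : GR) :
    Continuous (fun l => Ph N V c l r) := by
  induction r using GR_induction with
  | h0 => simp only [map_zero]; exact continuous_const
  | hadd r s hr hs => simp only [map_add]; exact hr.add hs
  | hE a x y =>
    have e : ∀ l, Ph N V c l (a • E x y) = a * SS N V c (l - x) (l - y) := by
      intro l
      rw [map_smul, smul_eq_mul]
      unfold Ph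
      rw [lin_E]
    simp only [e]
    refine continuous_const.mul ?_
    unfold SS
    have g0 : Continuous (fun l => S0 N V (l - y)) := h0.comp (by fun_prop)
    have g1 : Continuous (fun l => S1 N V (l - y)) := h1.comp (by fun_prop)
    exact (((continuous_id.sub continuous_const).add continuous_const).mul g0).sub g1

theorem poly_bd (P : Polynomial ℝ) : ∃ K : ℝ, 0 < K ∧ ∀ t : ℝ, 0 ≤ t → t ≤ 1 → |P.eval t| ≤ K := by
  obtain ⟨C, hC⟩ := (isCompact_Icc (a := (0 : ℝ)) (b := 1)).exists_bound_of_continuousOn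
    (f := fun t => P.eval t) P.continuous.continuousOn
  refine ⟨|C| + 1, by positivity, fun t h0 h1 => ?_⟩
  have := hC t ⟨h0, h1⟩
  rw [Real.norm_eq_abs] at this
  linarith [le_abs_self C]

theorem cm_bd {ρ δ : ℝ} (hA : AxA N ρ δ) (P : Polynomial ℝ) : ∃ K : ℝ, 0 < K ∧
    ∀ (M : ℝ) (R m : Finset α), 1 ≤ M → |cm N P M R m| ≤ K := by
  obtain ⟨K, hK, hk⟩ := poly_bd P
  refine ⟨K, hK, fun M R m hM => ?_⟩
  unfold cm
  split_ifs with h
  · rw [abs_mul, abs_pow, abs_neg, abs_one, one_pow, one_mul]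
    have hm0 := hA.nS_pos m
    have hm1 : (1 : ℝ) ≤ nS N m := by exact_mod_cast hA.one_le_nS m
    rcases eq_or_lt_of_le hM with h0 | h0
    · rw [← h0, Real.log_one, div_zero]
      exact hk 0 le_rfl zero_le_one
    · have hlM : 0 < Real.log M := Real.log_pos h0
      refine hk _ (div_nonneg (Real.log_nonneg ?_) hlM.le) ?_
      · rw [le_div_iff₀ hm0]; linarith [h.1]
      · rw [div_le_one hlM]
        exact Real.log_le_log (by positivity) (div_le_self (by linarith) hm1)
  · rw [abs_zero]; exact hK.le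

theorem card_SM {ρ δ : ℝ} (hA : AxA N ρ δ) : ∃ C : ℝ, 0 < C ∧ ∀ M : ℝ, 1 ≤ M →
    ((SM N M).card : ℝ) ≤ C * M := by
  classical
  obtain ⟨C, hC, h⟩ := hA.cnt
  have hρ := hA.rho
  refine ⟨ρ + C, by positivity, fun M hM => ?_⟩
  have h1 : (SM N M).card ≤ (FM N M).card := by
    refine Finset.card_le_card_of_injOn ind ?_ ?_
    · intro S hS
      have hS' : S ∈ SM N M := hS
      show ind S ∈ FM N M
      rw [hA.mem_FM, nF_ind]
      exact hA.mem_SM.1 hS'
    · intro S _ S' _ hSS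
      rw [← ind_support S, ← ind_support S', hSS]
  have h2 := (abs_le.1 (h M hM)).2
  have h3 : M ^ (1 - δ) ≤ M := by
    calc M ^ (1 - δ) ≤ M ^ (1 : ℝ) :=
          Real.rpow_le_rpow_of_exponent_le hM (by linarith [hA.del])
      _ = M := Real.rpow_one M
  have h4 : ((SM N M).card : ℝ) ≤ (FM N M).card := by exact_mod_cast h1
  have h5 : C * M ^ (1 - δ) ≤ C * M := mul_le_mul_of_nonneg_left h3 hC.le
  rw [add_mul]
  linarith

end PhC

section Unf

variable {k : Type} [Field k] [NumberField k] [IsTotallyReal k]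

/-- the unfolded sum of the average formula -/
noncomputable def Au (f : Ideal (𝓞 k)) (R : Finset (PrI k)) (D : 𝓞 k)
    (n₁ n₂ m₁ m₂ : Finset (PrI k)) : ℝ :=
  US f D (fun e A b c => wt f (Pool.Agent.H89.NV.nS n₁ * Pool.Agent.H89.NV.nS n₂ *
    Pool.Agent.H89.NV.nS m₁ * Pool.Agent.H89.NV.nS m₂) e A (em D) *
      wN f R n₁ n₂ e A b c * Nw f m₁ m₂ e A b c) (fun A b _ => zf A f (em b) (em D))

theorem q4_eq {b D : 𝓞 k} {I : Ideal (𝓞 k)} (h : b ^ 2 + D ∈ ni k 4 * I) :
    4 * q4 (b ^ 2 + D) - b ^ 2 = D := by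
  have h0 : ni k 4 * I ≤ ni k 4 := Ideal.mul_le_left
  have h1 : b ^ 2 + D ∈ ni k 4 := h0 h
  unfold ni at h1
  rw [Ideal.mem_span_singleton] at h1
  obtain ⟨c, hc⟩ := h1
  have e4 : ((4 : ℕ) : 𝓞 k) = 4 := by norm_num
  rw [e4] at hc
  have h2 : ∃ c : 𝓞 k, 4 * c = b ^ 2 + D := ⟨c, hc.symm⟩
  have h3 : 4 * q4 (b ^ 2 + D) = b ^ 2 + D := by
    unfold q4
    rw [dif_pos h2]
    exact h2.choose_spec
  rw [h3, add_sub_cancel_left]

theorem wN_bad {f : Ideal (𝓞 k)} {R : Finset (PrI k)} {D : 𝓞 k} (h : ¬ good f R D)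
    (n₁ n₂ : Finset (PrI k)) (e A : Ideal (𝓞 k)) (b : 𝓞 k) (hb : b ∈ bs f A D) :
    wN f R n₁ n₂ e A b (q4 (b ^ 2 + D)) = 0 := by
  classical
  unfold bs at hb
  rw [Finset.mem_filter] at hb
  have h4 := q4_eq hb.2.2
  unfold wN
  rw [if_neg (by rw [h4]; exact h)]

theorem US_bad {f : Ideal (𝓞 k)} {R : Finset (PrI k)} {D : 𝓞 k} (h : ¬ good f R D)
    (n₁ n₂ m₁ m₂ : Finset (PrI k)) : Au f R D n₁ n₂ m₁ m₂ = 0 := by
  unfold Au US
  refine (tsum_congr (fun p => ?_)).trans tsum_zero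
  refine Finset.sum_eq_zero fun b hb => ?_
  have h5 := wN_bad h n₁ n₂ p.1 p.2 b hb
  beta_reduce
  rw [h5, mul_zero, zero_mul, zero_mul]

variable {G : (Pl k → ℝ) → ℝ} {η : ℝ}

open Classical in
theorem fsum (hG : GW η G) {T : ℝ} (hT : 0 < T) (hUFC : T_UFC k) (P : Polynomial ℝ) (M : ℝ)
    (f : Ideal (𝓞 k)) (R : Finset (PrI k)) (hf : f ≠ ⊥) (hR : RA k R) :
    (∑' D : 𝓞 k, if good f R D then
        G (fun v => em D v / T) * S2 P M f R (bD f D) D else 0) =
      2 * ∑ n₁ ∈ R.powerset, ∑ n₂ ∈ R.powerset, ∑ m₁ ∈ DM k M, ∑ m₂ ∈ DM k M,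
        Pool.Agent.H89.NV.cm P M R m₁ * Pool.Agent.H89.NV.cm P M R m₂ *
          ∑' D : 𝓞 k, G (fun v => em D v / T) * Au f R D n₁ n₂ m₁ m₂ := by
  obtain ⟨s, hs⟩ : ∃ s : Finset (𝓞 k), s = (em_fin (k := k) (T / η)).toFinset := ⟨_, rfl⟩
  have hη := hG.pos
  have hpos : ∀ D : 𝓞 k, G (fun v => em D v / T) ≠ 0 → ∀ v, 0 < em D v := fun D h v =>
    (by positivity : 0 < η * T).trans_le (G_supp hG hT h v).1
  have hG0 : ∀ D : 𝓞 k, D ∉ s → G (fun v => em D v / T) = 0 := by
    intro D hD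
    by_contra hh
    apply hD
    rw [hs, Set.Finite.mem_toFinset]
    intro v
    rw [abs_of_pos (hpos D hh v)]
    exact (G_supp hG hT hh v).2
  rw [tsum_eq_sum (s := s) (fun D hD => by rw [hG0 D hD, zero_mul, ite_self])]
  have h1 : ∀ n₁ n₂ m₁ m₂ : Finset (PrI k),
      ∑' D : 𝓞 k, G (fun v => em D v / T) * Au f R D n₁ n₂ m₁ m₂ =
      ∑ D ∈ s, G (fun v => em D v / T) * Au f R D n₁ n₂ m₁ m₂ := by
    intro n₁ n₂ m₁ m₂
    exact tsum_eq_sum (fun D hD => by rw [hG0 D hD, zero_mul])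
  have h2 : ∀ D : 𝓞 k, (if good f R D then
        G (fun v => em D v / T) * S2 P M f R (bD f D) D else 0) =
      2 * ∑ n₁ ∈ R.powerset, ∑ n₂ ∈ R.powerset, ∑ m₁ ∈ DM k M, ∑ m₂ ∈ DM k M,
        Pool.Agent.H89.NV.cm P M R m₁ * Pool.Agent.H89.NV.cm P M R m₂ *
          (G (fun v => em D v / T) * Au f R D n₁ n₂ m₁ m₂) := by
    intro D
    by_cases hg : good f R D
    · rw [if_pos hg]
      by_cases h0 : G (fun v => em D v / T) = 0
      · simp only [h0, zero_mul, mul_zero, Finset.sum_const_zero]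
      · have hb : bD f D ∈ f ∧ bD f D ^ 2 + D ∈ ni k 4 * f ^ 2 := by
          unfold bD
          rw [dif_pos hg.1]
          exact hg.1.choose_spec
        rw [hUFC P M f R (bD f D) D hf hR (fun v => hpos D h0 v) hg hb.1 hb.2]
        simp only [Finset.mul_sum]
        refine Finset.sum_congr rfl fun n₁ _ => Finset.sum_congr rfl fun n₂ _ =>
          Finset.sum_congr rfl fun m₁ _ => Finset.sum_congr rfl fun m₂ _ => ?_
        unfold Au
        ring
    · rw [if_neg hg]
      simp only [US_bad hg, mul_zero, Finset.sum_const_zero]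
  rw [Finset.sum_congr rfl (fun D _ => h2 D), ← Finset.mul_sum]
  congr 1
  simp only [h1]
  rw [Finset.sum_comm]
  refine Finset.sum_congr rfl fun n₁ _ => ?_
  rw [Finset.sum_comm]
  refine Finset.sum_congr rfl fun n₂ _ => ?_
  rw [Finset.sum_comm]
  refine Finset.sum_congr rfl fun m₁ _ => ?_
  rw [Finset.sum_comm]
  refine Finset.sum_congr rfl fun m₂ _ => ?_
  rw [Finset.mul_sum]

/-- the integral against the main term as a linear functional -/
noncomputable def IL (hG : GW η G) {T : ℝ} (hT : 0 < T) {f : Ideal (𝓞 k)} (hf : f ≠ ⊥)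
    (hc : ∀ r, Continuous (fun l => Ph (NP k) (Vk k) (c0 k) l r)) : GR →ₗ[ℝ] ℝ where
  toFun r := ∫ d : Pl k → ℝ, G (fun v => d v / T) *
    Ph (NP k) (Vk k) (c0 k) (Real.log (sd f d)) r
  map_add' r s := by
    simp only [map_add, mul_add]
    exact integral_add (int_box hG hT ((hc r).comp_continuousOn (log_sd_cont hf)))
      (int_box hG hT ((hc s).comp_continuousOn (log_sd_cont hf)))
  map_smul' a r := by
    simp only [map_smul, smul_eq_mul, RingHom.id_apply]
    rw [← integral_const_mul]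
    refine integral_congr_ae (Filter.Eventually.of_forall fun d => ?_)
    show G (fun v => d v / T) * (a * Ph (NP k) (Vk k) (c0 k) (Real.log (sd f d)) r) =
      a * (G (fun v => d v / T) * Ph (NP k) (Vk k) (c0 k) (Real.log (sd f d)) r)
    ring

/-- primes of the mollifier do not divide the modulus at the small primes -/
theorem not_dvd_qN {R m : Finset (PrI k)} (hR : RA k R) (hm : Disjoint m R) {P : PrI k}
    (hP : P ∈ m) : ¬ P.1 ∣ qN R := by
  intro h
  have hPR : P ∉ R := Finset.disjoint_left.1 hm hP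
  have hp : Prime P.1 := Ideal.prime_of_isPrime P.2.2 P.2.1
  unfold qN at h
  rcases hp.dvd_or_dvd h with h1 | h1
  · unfold ni at h1
    rw [Ideal.dvd_span_singleton] at h1
    have h2 : (2 : 𝓞 k) * 2 ∈ P.1 := by
      have e : ((4 : ℕ) : 𝓞 k) = 2 * 2 := by norm_num
      rw [← e]
      exact h1
    rcases P.2.1.mem_or_mem h2 with h3 | h3
    · exact hPR (hR P h3)
    · exact hPR (hR P h3)
  · have h2 := hp.dvd_of_dvd_pow h1
    unfold idS at h2
    obtain ⟨Q, hQ, hPQ⟩ := (Prime.dvd_finsetProd_iff hp _).1 h2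
    have h3 : Q.1 ≤ P.1 := Ideal.dvd_iff_le.1 hPQ
    have hQm : Q.1.IsMaximal := Q.2.1.isMaximal Q.2.2
    have h4 : Q.1 = P.1 := hQm.eq_of_le P.2.1.ne_top h3
    exact hPR ((Subtype.ext h4 : Q = P) ▸ hQ)

theorem qN_ne (R : Finset (PrI k)) : qN R ≠ ⊥ := by
  unfold qN
  rw [← Ideal.zero_eq_bot]
  refine mul_ne_zero ?_ (pow_ne_zero 2 ?_)
  · unfold ni
    rw [Ideal.zero_eq_bot, Ne, Ideal.span_singleton_eq_bot]
    exact_mod_cast (by norm_num : (4 : ℕ) ≠ 0)
  · rw [Ideal.zero_eq_bot]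
    exact idS_ne R

end Unf

end Pool.Agent.H10.NVK
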