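import Pool.Agent.H10.NVK.SMB

/-!
# From the average of the unfolded sums to the second moment (module M_SMC)
-/

set_option autoImplicit false

open MeasureTheory Set Filter NumberField NumberField.InfinitePlace
open scoped Real

namespace Pool.Agent.H10.NVK

open Pool.Agent.H23.NVK
open Pool.Agent.H31.CN (GR E lin mo Mt GR_induction lin_E)
open Pool.Agent.H65.CM4 (Pl dg nm rv)
open Pool.Agent.H61.NVK (Vk kp c0 zf sD)
open Pool.Agent.H89.NV (PrI np WW wbar wN wF dR qN RA sd em tp US wt Nw good Dis bD GW kf S2 DM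
  WD idS ni q4 bs T_AVG T_WDN T_UFC T_SM2)

section

variable {k : Type} [Field k] [NumberField k] [IsTotallyReal k]
variable {G : (Pl k → ℝ) → ℝ} {η : ℝ}

/-- the sum of the main terms -/
theorem sum_main (hG : GW η G) {T : ℝ} (hT : 0 < T) {f : Ideal (𝓞 k)} (hf : f ≠ ⊥)
    (hc : ∀ r, Continuous (fun l => Ph (NP k) (Vk k) (c0 k) l r)) (R : Finset (PrI k))
    (Nn : Finset (PrI k) → Finset (PrI k) → GR) (P : Polynomial ℝ) (M : ℝ)
    (hN : ∀ d : Pl k → ℝ, (∀ v, 0 < d v) →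
      ∀ n₁ ∈ R.powerset, ∀ n₂ ∈ R.powerset, ∀ m₁ m₂ : Finset (PrI k),
        cm (NP k) P M R m₁ * cm (NP k) P M R m₂ * Pool.Agent.H89.NV.Mn f (qN R)
          (Pool.Agent.H89.NV.nS n₁ * Pool.Agent.H89.NV.nS n₂) m₁ m₂ (wN f R n₁ n₂) d =
        kp k * Ph (NP k) (Vk k) (c0 k) (Real.log (sd f d))
          (Nn n₁ n₂ * ((cm (NP k) P M R m₁ * cm (NP k) P M R m₂) • ka (NP k) m₁ m₂))) :
    ∑ n₁ ∈ R.powerset, ∑ n₂ ∈ R.powerset, ∑ m₁ ∈ SM (NP k) M, ∑ m₂ ∈ SM (NP k) M,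
      cm (NP k) P M R m₁ * cm (NP k) P M R m₂ *
        ∫ d : Pl k → ℝ, G (fun v => d v / T) * Pool.Agent.H89.NV.Mn f (qN R)
          (Pool.Agent.H89.NV.nS n₁ * Pool.Agent.H89.NV.nS n₂) m₁ m₂ (wN f R n₁ n₂) d =
      kp k * ∫ d : Pl k → ℝ, G (fun v => d v / T) *
        Ph (NP k) (Vk k) (c0 k) (Real.log (sd f d))
          ((∑ n₁ ∈ R.powerset, ∑ n₂ ∈ R.powerset, Nn n₁ n₂) *
            ∑ m₁ ∈ SM (NP k) M, ∑ m₂ ∈ SM (NP k) M,
              (cm (NP k) P M R m₁ * cm (NP k) P M R m₂) • ka (NP k) m₁ m₂) := by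
  have h1 : ∀ n₁ ∈ R.powerset, ∀ n₂ ∈ R.powerset, ∀ m₁ m₂ : Finset (PrI k),
      cm (NP k) P M R m₁ * cm (NP k) P M R m₂ *
        ∫ d : Pl k → ℝ, G (fun v => d v / T) * Pool.Agent.H89.NV.Mn f (qN R)
          (Pool.Agent.H89.NV.nS n₁ * Pool.Agent.H89.NV.nS n₂) m₁ m₂ (wN f R n₁ n₂) d =
      kp k * IL hG hT hf hc
        (Nn n₁ n₂ * ((cm (NP k) P M R m₁ * cm (NP k) P M R m₂) • ka (NP k) m₁ m₂)) := by
    intro n₁ hn₁ n₂ hn₂ m₁ m₂
    show _ = kp k * ∫ d : Pl k → ℝ, G (fun v => d v / T) *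
      Ph (NP k) (Vk k) (c0 k) (Real.log (sd f d))
        (Nn n₁ n₂ * ((cm (NP k) P M R m₁ * cm (NP k) P M R m₂) • ka (NP k) m₁ m₂))
    rw [← integral_const_mul, ← integral_const_mul]
    refine integral_congr_ae (Filter.Eventually.of_forall fun d => ?_)
    by_cases h0 : G (fun v => d v / T) = 0
    · simp only [h0, zero_mul, mul_zero]
    · have hη := hG.pos
      have hd : ∀ v, 0 < d v := fun v =>
        (by positivity : 0 < η * T).trans_le (G_supp hG hT h0 v).1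
      have h2 := hN d hd n₁ hn₁ n₂ hn₂ m₁ m₂
      show cm (NP k) P M R m₁ * cm (NP k) P M R m₂ * (G (fun v => d v / T) *
        Pool.Agent.H89.NV.Mn f (qN R) (Pool.Agent.H89.NV.nS n₁ * Pool.Agent.H89.NV.nS n₂)
          m₁ m₂ (wN f R n₁ n₂) d) = kp k * (G (fun v => d v / T) *
        Ph (NP k) (Vk k) (c0 k) (Real.log (sd f d))
          (Nn n₁ n₂ * ((cm (NP k) P M R m₁ * cm (NP k) P M R m₂) • ka (NP k) m₁ m₂)))
      calc _ = G (fun v => d v / T) * (cm (NP k) P M R m₁ * cm (NP k) P M R m₂ *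
            Pool.Agent.H89.NV.Mn f (qN R) (Pool.Agent.H89.NV.nS n₁ * Pool.Agent.H89.NV.nS n₂)
              m₁ m₂ (wN f R n₁ n₂) d) := by ring
        _ = _ := by
          rw [h2]
          ring
  have h2 : IL hG hT hf hc ((∑ n₁ ∈ R.powerset, ∑ n₂ ∈ R.powerset, Nn n₁ n₂) *
            ∑ m₁ ∈ SM (NP k) M, ∑ m₂ ∈ SM (NP k) M,
              (cm (NP k) P M R m₁ * cm (NP k) P M R m₂) • ka (NP k) m₁ m₂) =
      ∑ n₁ ∈ R.powerset, ∑ n₂ ∈ R.powerset, ∑ m₁ ∈ SM (NP k) M, ∑ m₂ ∈ SM (NP k) M,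
        IL hG hT hf hc
          (Nn n₁ n₂ * ((cm (NP k) P M R m₁ * cm (NP k) P M R m₂) • ka (NP k) m₁ m₂)) := by
    rw [Finset.sum_mul, map_sum]
    refine Finset.sum_congr rfl fun n₁ _ => ?_
    rw [Finset.sum_mul, map_sum]
    refine Finset.sum_congr rfl fun n₂ _ => ?_
    rw [Finset.mul_sum, map_sum]
    refine Finset.sum_congr rfl fun m₁ _ => ?_
    rw [Finset.mul_sum, map_sum]
  show _ = kp k * IL hG hT hf hc _
  rw [h2, Finset.mul_sum]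
  refine Finset.sum_congr rfl fun n₁ hn₁ => ?_
  rw [Finset.mul_sum]
  refine Finset.sum_congr rfl fun n₂ hn₂ => ?_
  rw [Finset.mul_sum]
  refine Finset.sum_congr rfl fun m₁ _ => ?_
  rw [Finset.mul_sum]
  exact Finset.sum_congr rfl fun m₂ _ => h1 n₁ hn₁ n₂ hn₂ m₁ m₂

/-- the total error of the average formula -/
theorem sum_err {R : Finset (PrI k)} {S : Finset (Finset (PrI k))} {B : ℝ}
    (x y : Finset (PrI k) → Finset (PrI k) → Finset (PrI k) → Finset (PrI k) → ℝ)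
    (h : ∀ n₁ ∈ R.powerset, ∀ n₂ ∈ R.powerset, ∀ m₁ ∈ S, ∀ m₂ ∈ S,
      |x n₁ n₂ m₁ m₂ - y n₁ n₂ m₁ m₂| ≤ B) :
    |(∑ n₁ ∈ R.powerset, ∑ n₂ ∈ R.powerset, ∑ m₁ ∈ S, ∑ m₂ ∈ S, x n₁ n₂ m₁ m₂) -
      ∑ n₁ ∈ R.powerset, ∑ n₂ ∈ R.powerset, ∑ m₁ ∈ S, ∑ m₂ ∈ S, y n₁ n₂ m₁ m₂| ≤
      (R.powerset.card : ℝ) * (R.powerset.card * (S.card * (S.card * B))) := by
  simp only [← Finset.sum_sub_distrib]
  calc |∑ n₁ ∈ R.powerset, ∑ n₂ ∈ R.powerset, ∑ m₁ ∈ S, ∑ m₂ ∈ S,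
        (x n₁ n₂ m₁ m₂ - y n₁ n₂ m₁ m₂)|
      ≤ ∑ n₁ ∈ R.powerset, ∑ n₂ ∈ R.powerset, ∑ m₁ ∈ S, ∑ m₂ ∈ S, B := by
        refine (Finset.abs_sum_le_sum_abs _ _).trans (Finset.sum_le_sum fun n₁ hn₁ => ?_)
        refine (Finset.abs_sum_le_sum_abs _ _).trans (Finset.sum_le_sum fun n₂ hn₂ => ?_)
        refine (Finset.abs_sum_le_sum_abs _ _).trans (Finset.sum_le_sum fun m₁ hm₁ => ?_)
        refine (Finset.abs_sum_le_sum_abs _ _).trans (Finset.sum_le_sum fun m₂ hm₂ => ?_)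
        exact h n₁ hn₁ n₂ hn₂ m₁ hm₁ m₂ hm₂
    _ = _ := by simp only [Finset.sum_const, nsmul_eq_mul]

end

theorem pf_SMC
    (hNEL : ∀ (k : Type) [Field k] [NumberField k] [IsTotallyReal k], Pool.Agent.H89.NV.T_NEL k)
    (hAXK : T_AXK) (hVCK : T_VCK) (hBRG : T_BRG) (hTRM : T_TRM) (hMNR : T_MNR) (hEQD : T_EQD)
    (hSSA : T_SSA) (hMAI : T_MAI) : T_SMC := by
  classical
  intro k _ _ _ hAVG hWDN hUFC f R G η hf hR hG P θ ε hP hθ hθ' hε
  obtain ⟨δA, hA⟩ := hAXK k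
  obtain ⟨q1, q2, q3, q4, q5, q6, q7, q8⟩ := hEQD k δA hA
  obtain ⟨Nn, hmo, hNn⟩ := key_SMA hNEL hAXK hVCK hBRG hTRM hMNR hEQD k f R hf hR
  obtain ⟨-, ⟨hc0, hc1⟩, -⟩ := hSSA (PrI k) (NP k) (kp k) δA (Vk k) hA (hVCK k)
  have hc : ∀ r, Continuous (fun l => Ph (NP k) (Vk k) (c0 k) l r) := fun r =>
    Ph_cont hc0 hc1 r
  obtain ⟨K, hK, hk⟩ := cm_bd hA P
  obtain ⟨CS, hCS, hcard⟩ := card_SM hA
  obtain ⟨KW, hKW⟩ := hWDN f R hf hR
  have hkp : 0 < kp k := hA.rho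
  have hdg : 1 ≤ dg k := dg_pos
  obtain ⟨N₀, hN₀⟩ : ∃ N₀, N₀ = ∑ n₁ ∈ R.powerset, ∑ n₂ ∈ R.powerset, Nn n₁ n₂ := ⟨_, rfl⟩
  rw [← hN₀] at hmo
  obtain ⟨Gi, hGi⟩ : ∃ Gi, Gi = ∫ u : Pl k → ℝ, |G u| := ⟨_, rfl⟩
  have hGi0 : 0 ≤ Gi := by
    rw [hGi]
    exact integral_nonneg fun u => abs_nonneg _
  -- the constants
  obtain ⟨B, hB⟩ : ∃ B, B = 2 * (kf f / 2 ^ dg k) * kp k := ⟨_, rfl⟩
  have hkf : 0 ≤ kf f := by
    unfold kf
    positivity
  have hB0 : 0 ≤ B := by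
    rw [hB]
    positivity
  obtain ⟨δ, hδ⟩ : ∃ δ, δ = min (1 / 100) (1 / 4 - θ) := ⟨_, rfl⟩
  have hδ0 : 0 < δ := by
    rw [hδ]
    exact lt_min (by norm_num) (by linarith)
  have hδ1 : δ ≤ 1 / 100 := by
    rw [hδ]
    exact min_le_left _ _
  have hδ2 : θ ≤ 1 / 4 - δ := by
    have := min_le_right (1 / 100 : ℝ) (1 / 4 - θ)
    rw [← hδ] at this
    linarith
  -- the thresholds
  have hAv : ∀ n : Finset (PrI k) × Finset (PrI k), ∃ T₀ : ℝ, n.1 ⊆ R → n.2 ⊆ R →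
      ∀ T : ℝ, T₀ ≤ T → ∀ m₁ m₂ : Finset (PrI k), (∀ P ∈ m₁ ∪ m₂, ¬ P.1 ∣ qN R) →
      Pool.Agent.H89.NV.nS m₁ ≤ T ^ (dg k * (1 / 4 - δ)) →
      Pool.Agent.H89.NV.nS m₂ ≤ T ^ (dg k * (1 / 4 - δ)) →
      |(∑' D : 𝓞 k, G (fun v => em D v / T) * Au f R D n.1 n.2 m₁ m₂) -
        kf f / 2 ^ dg k * ∫ d : Pl k → ℝ, G (fun v => d v / T) *
          Pool.Agent.H89.NV.Mn f (qN R)
            (Pool.Agent.H89.NV.nS n.1 * Pool.Agent.H89.NV.nS n.2) m₁ m₂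
            (wN f R n.1 n.2) d| ≤ T ^ (-1 : ℝ) := by
    intro n
    by_cases hn : n.1 ⊆ R ∧ n.2 ⊆ R
    · have h1 : (1 : ℝ) ≤ Pool.Agent.H89.NV.nS n.1 := by
        rw [q2]
        exact_mod_cast hA.one_le_nS n.1
      have h2 : (1 : ℝ) ≤ Pool.Agent.H89.NV.nS n.2 := by
        rw [q2]
        exact_mod_cast hA.one_le_nS n.2
      obtain ⟨T₀, hT₀⟩ := hAVG f (qN R) G η hf (qN_ne R) hG
        (Pool.Agent.H89.NV.nS n.1 * Pool.Agent.H89.NV.nS n.2) KW δ (by nlinarith) hδ0 hδ1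
      exact ⟨T₀, fun _ _ T hT m₁ m₂ h3 h4 h5 => hT₀ T hT m₁ m₂ (wN f R n.1 n.2)
        (hKW n.1 n.2 hn.1 hn.2).1 h3 h4 h5⟩
    · exact ⟨0, fun h1 h2 => absurd ⟨h1, h2⟩ hn⟩
  choose T₁ hT₁ using hAv
  obtain ⟨X₂, hX₂⟩ := hMAI (PrI k) (NP k) (kp k) δA (Vk k) hA (hVCK k) (c0 k) N₀ P R θ
    (dg k * |Real.log η| + |Real.log (nm f)|) (ε / (2 * (B * Gi + 1))) hP (q8 R hR) hθ hθ'
    (by positivity)
  obtain ⟨c, hcc⟩ : ∃ c, c = (R.powerset.card : ℝ) := ⟨_, rfl⟩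
  have hc0' : 0 ≤ c := by
    rw [hcc]
    exact Nat.cast_nonneg _
  obtain ⟨X₃, hX₃⟩ : ∃ X₃, X₃ = 4 * (c * (c * (CS * (CS * K ^ 2)))) / ε := ⟨_, rfl⟩
  refine ⟨max (max 1 X₂) (max X₃ (∑ n ∈ R.powerset ×ˢ R.powerset, |T₁ n|)), fun T hTT => ?_⟩
  have hTa : 1 ≤ T := ((le_max_left _ _).trans (le_max_left _ _)).trans hTT
  have hTb : X₂ ≤ T := ((le_max_right _ _).trans (le_max_left _ _)).trans hTT
  have hTc : X₃ ≤ T := ((le_max_left _ _).trans (le_max_right _ _)).trans hTT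
  have hTd : ∑ n ∈ R.powerset ×ˢ R.powerset, |T₁ n| ≤ T :=
    ((le_max_right _ _).trans (le_max_right _ _)).trans hTT
  have hT0 : 0 < T := by linarith
  obtain ⟨X, hX⟩ : ∃ X, X = T ^ dg k := ⟨_, rfl⟩
  have hTX : T ≤ X := by
    rw [hX]
    exact le_self_pow₀ hTa (by omega)
  have hX0 : 0 < X := by linarith
  have hX1 : 1 ≤ X := by linarith
  obtain ⟨M, hM⟩ : ∃ M, M = T ^ (dg k * θ) := ⟨_, rfl⟩
  have hMX : M = X ^ θ := by
    rw [hM, hX, Real.rpow_mul hT0.le, Real.rpow_natCast]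
  have hM1 : 1 ≤ M := by
    rw [hMX]
    exact Real.one_le_rpow hX1 hθ.le
  rw [← hX, ← hM, fsum hG hT0 hUFC P M f R hf hR]
  simp only [q4, q6]
  -- the error of the average formula
  have herr : |2 * (∑ n₁ ∈ R.powerset, ∑ n₂ ∈ R.powerset, ∑ m₁ ∈ SM (NP k) M,
        ∑ m₂ ∈ SM (NP k) M, cm (NP k) P M R m₁ * cm (NP k) P M R m₂ *
          ∑' D : 𝓞 k, G (fun v => em D v / T) * Au f R D n₁ n₂ m₁ m₂) -
      2 * (kf f / 2 ^ dg k) * ∑ n₁ ∈ R.powerset, ∑ n₂ ∈ R.powerset, ∑ m₁ ∈ SM (NP k) M,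
        ∑ m₂ ∈ SM (NP k) M, cm (NP k) P M R m₁ * cm (NP k) P M R m₂ *
          ∫ d : Pl k → ℝ, G (fun v => d v / T) * Pool.Agent.H89.NV.Mn f (qN R)
            (Pool.Agent.H89.NV.nS n₁ * Pool.Agent.H89.NV.nS n₂) m₁ m₂ (wN f R n₁ n₂) d| ≤
      ε / 2 * X := by
    have hterm : ∀ n₁ ∈ R.powerset, ∀ n₂ ∈ R.powerset, ∀ m₁ ∈ SM (NP k) M,
        ∀ m₂ ∈ SM (NP k) M, |2 * (cm (NP k) P M R m₁ * cm (NP k) P M R m₂ *
          ∑' D : 𝓞 k, G (fun v => em D v / T) * Au f R D n₁ n₂ m₁ m₂) -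
          2 * (kf f / 2 ^ dg k) * (cm (NP k) P M R m₁ * cm (NP k) P M R m₂ *
          ∫ d : Pl k → ℝ, G (fun v => d v / T) * Pool.Agent.H89.NV.Mn f (qN R)
            (Pool.Agent.H89.NV.nS n₁ * Pool.Agent.H89.NV.nS n₂) m₁ m₂ (wN f R n₁ n₂) d)| ≤
          2 * K ^ 2 * T⁻¹ := by
      intro n₁ hn₁ n₂ hn₂ m₁ hm₁ m₂ hm₂
      by_cases hcc : cm (NP k) P M R m₁ * cm (NP k) P M R m₂ = 0
      · rw [hcc]
        simp only [zero_mul, mul_zero, sub_zero, abs_zero]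
        positivity
      · have hc1 : cm (NP k) P M R m₁ ≠ 0 := fun h0 => hcc (by rw [h0, zero_mul])
        have hc2 : cm (NP k) P M R m₂ ≠ 0 := fun h0 => hcc (by rw [h0, mul_zero])
        have hcond : ∀ m : Finset (PrI k), cm (NP k) P M R m ≠ 0 →
            (nS (NP k) m : ℝ) ≤ M ∧ Disjoint m R := by
          intro m hm
          by_contra hh
          apply hm
          unfold cm
          rw [if_neg hh]
        obtain ⟨hs1, hp1⟩ := hcond m₁ hc1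
        obtain ⟨hs2, hp2⟩ := hcond m₂ hc2
        have hMT : M ≤ T ^ (dg k * (1 / 4 - δ)) := by
          rw [hM]
          apply Real.rpow_le_rpow_of_exponent_le hTa
          exact mul_le_mul_of_nonneg_left hδ2 (Nat.cast_nonneg _)
        have hXn : T₁ (n₁, n₂) ≤ T := by
          refine (le_abs_self _).trans ((Finset.single_le_sum (f := fun n => |T₁ n|)
            (fun _ _ => abs_nonneg _) ?_).trans hTd)
          exact Finset.mem_product.2 ⟨hn₁, hn₂⟩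
        have hav := hT₁ (n₁, n₂) (Finset.mem_powerset.1 hn₁) (Finset.mem_powerset.1 hn₂) T
          hXn m₁ m₂ (fun Q hQ => by
            rcases Finset.mem_union.1 hQ with hQ | hQ
            · exact not_dvd_qN hR hp1 hQ
            · exact not_dvd_qN hR hp2 hQ) (by rw [q2]; exact hs1.trans hMT)
          (by rw [q2]; exact hs2.trans hMT)
        rw [Real.rpow_neg_one] at hav
        obtain ⟨a, ha⟩ : ∃ a, a = ∑' D : 𝓞 k, G (fun v => em D v / T) *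
          Au f R D n₁ n₂ m₁ m₂ := ⟨_, rfl⟩
        obtain ⟨b, hb⟩ : ∃ b, b = ∫ d : Pl k → ℝ, G (fun v => d v / T) *
          Pool.Agent.H89.NV.Mn f (qN R) (Pool.Agent.H89.NV.nS n₁ * Pool.Agent.H89.NV.nS n₂)
            m₁ m₂ (wN f R n₁ n₂) d := ⟨_, rfl⟩
        dsimp only at hav
        rw [← ha, ← hb] at hav ⊢
        have e : 2 * (cm (NP k) P M R m₁ * cm (NP k) P M R m₂ * a) -
            2 * (kf f / 2 ^ dg k) * (cm (NP k) P M R m₁ * cm (NP k) P M R m₂ * b) =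
            2 * (cm (NP k) P M R m₁ * cm (NP k) P M R m₂) *
              (a - kf f / 2 ^ dg k * b) := by ring
        rw [e, abs_mul, abs_mul, abs_mul, abs_two]
        have hb1 := hk M R m₁ hM1
        have hb2 := hk M R m₂ hM1
        calc 2 * (|cm (NP k) P M R m₁| * |cm (NP k) P M R m₂|) *
              |a - kf f / 2 ^ dg k * b| ≤ 2 * (K * K) * T⁻¹ := by
              refine mul_le_mul ?_ hav (abs_nonneg _) (by positivity)
              refine mul_le_mul_of_nonneg_left ?_ (by norm_num)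
              exact mul_le_mul hb1 hb2 (abs_nonneg _) hK.le
          _ = 2 * K ^ 2 * T⁻¹ := by ring
    have h5 := sum_err _ _ hterm
    rw [← hcc] at h5
    simp only [← Finset.mul_sum] at h5
    refine h5.trans ?_
    have hSc := hcard M hM1
    have hMM : M * M ≤ X := by
      rw [hMX, ← Real.rpow_add hX0]
      calc X ^ (θ + θ) ≤ X ^ (1 : ℝ) := Real.rpow_le_rpow_of_exponent_le hX1 (by linarith)
        _ = X := Real.rpow_one X
    have hS0 : (0 : ℝ) ≤ (SM (NP k) M).card := Nat.cast_nonneg _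
    calc c * (c * ((SM (NP k) M).card * ((SM (NP k) M).card * (2 * K ^ 2 * T⁻¹)))) ≤
        c * (c * (CS * M * (CS * M * (2 * K ^ 2 * T⁻¹)))) := by
          have hX' : 0 ≤ 2 * K ^ 2 * T⁻¹ := by positivity
          refine mul_le_mul_of_nonneg_left (mul_le_mul_of_nonneg_left ?_ hc0') hc0'
          refine mul_le_mul hSc (mul_le_mul_of_nonneg_right hSc hX') (by positivity)
            (by positivity)
      _ = c * (c * (CS * (CS * (2 * K ^ 2)))) * T⁻¹ * (M * M) := by ring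
      _ ≤ c * (c * (CS * (CS * (2 * K ^ 2)))) * T⁻¹ * X :=
          mul_le_mul_of_nonneg_left hMM (by positivity)
      _ = ε / 2 * X₃ * T⁻¹ * X := by
          have e3 : ε * X₃ = 4 * (c * (c * (CS * (CS * K ^ 2)))) := by
            rw [hX₃, mul_div_assoc', mul_comm ε, mul_div_assoc, div_self hε.ne', mul_one]
          have e4 : c * (c * (CS * (CS * (2 * K ^ 2)))) = ε / 2 * X₃ := by linarith
          rw [e4]
      _ ≤ ε / 2 * 1 * X := by
          apply mul_le_mul_of_nonneg_right _ hX0.le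
          rw [mul_assoc]
          apply mul_le_mul_of_nonneg_left _ (by positivity)
          rw [← div_eq_mul_inv, div_le_one hT0]
          exact hTc
      _ = ε / 2 * X := by ring
  -- the main term
  have hsm := sum_main hG hT0 hf hc R Nn P M (fun d hd => hNn P M d hd)
  rw [hsm, ← hN₀] at herr
  obtain ⟨r, hr⟩ : ∃ r : GR, r = N₀ * ∑ m₁ ∈ SM (NP k) M, ∑ m₂ ∈ SM (NP k) M,
    (cm (NP k) P M R m₁ * cm (NP k) P M R m₂) • ka (NP k) m₁ m₂ := ⟨_, rfl⟩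
  rw [← hr] at herr
  obtain ⟨W, hW⟩ : ∃ W, W = mo 0 0 N₀ * (Sg (NP k) R / kp k) * (1 / 2) *
    Mt P (1 / (2 * θ)) := ⟨_, rfl⟩
  have hW' : X * kf f * (∫ u, G u) * (dR R * ((∏ P ∈ R, (1 - 1 / np P)) ^ 3 *
      Pool.Agent.H89.NV.Sg k R) * Mt P (1 / (2 * θ))) = B * (X * (∫ u, G u) * W) := by
    rw [hW, hB, hmo, q7 R]
    field_simp
  have hmain : |(∫ d : Pl k → ℝ, G (fun v => d v / T) *
      Ph (NP k) (Vk k) (c0 k) (Real.log (sd f d)) r) - X * (∫ u, G u) * W| ≤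
      ε / (2 * (B * Gi + 1)) * (X * Gi) := by
    have hG1 : Integrable fun d : Pl k → ℝ => G (fun v => d v / T) := by
      have := int_box hG hT0 (F := fun _ => 1) continuousOn_const
      simpa using this
    have i1 : Integrable fun d : Pl k → ℝ => G (fun v => d v / T) *
        Ph (NP k) (Vk k) (c0 k) (Real.log (sd f d)) r :=
      int_box hG hT0 ((hc r).comp_continuousOn (log_sd_cont hf))
    have e : (∫ d : Pl k → ℝ, G (fun v => d v / T) *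
        Ph (NP k) (Vk k) (c0 k) (Real.log (sd f d)) r) - X * (∫ u, G u) * W =
        ∫ d : Pl k → ℝ, G (fun v => d v / T) *
          (Ph (NP k) (Vk k) (c0 k) (Real.log (sd f d)) r - W) := by
      rw [hX, ← scale G hT0, ← integral_mul_const, ← integral_sub i1 (hG1.mul_const W)]
      refine integral_congr_ae (Filter.Eventually.of_forall fun d => ?_)
      show G (fun v => d v / T) * Ph (NP k) (Vk k) (c0 k) (Real.log (sd f d)) r -
        G (fun v => d v / T) * W = _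
      ring
    rw [e, ← Real.norm_eq_abs]
    refine (norm_integral_le_of_norm_le
      (g := fun d => ε / (2 * (B * Gi + 1)) * |G (fun v => d v / T)|)
      (hG1.abs.const_mul _) ?_).trans ?_
    · refine Filter.Eventually.of_forall fun d => ?_
      rw [norm_mul, Real.norm_eq_abs, Real.norm_eq_abs, mul_comm]
      by_cases h0 : G (fun v => d v / T) = 0
      · rw [h0, abs_zero, mul_zero, mul_zero]
      · refine mul_le_mul_of_nonneg_right ?_ (abs_nonneg _)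
        have := hX₂ X (Real.log (sd f d)) (hTb.trans hTX)
          (by rw [hX]; exact log_near hG hf hT0 h0)
        rw [← hMX, ← hr, ← hW] at this
        exact this
    · rw [integral_const_mul]
      have h9 : ∫ d : Pl k → ℝ, |G (fun v => d v / T)| = X * Gi := by
        rw [hX, hGi]
        exact scale (fun u => |G u|) hT0
      rw [h9]
  obtain ⟨J, hJ⟩ : ∃ J, J = ∫ d : Pl k → ℝ, G (fun v => d v / T) *
      Ph (NP k) (Vk k) (c0 k) (Real.log (sd f d)) r := ⟨_, rfl⟩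
  rw [← hJ] at hmain herr
  rw [hW']
  have hfin : |B * J - B * (X * (∫ u, G u) * W)| ≤ ε / 2 * X := by
    rw [← mul_sub, abs_mul, abs_of_nonneg hB0]
    refine (mul_le_mul_of_nonneg_left hmain hB0).trans ?_
    have h1 : B * (ε / (2 * (B * Gi + 1)) * (X * Gi)) =
        ε / 2 * X * (B * Gi / (B * Gi + 1)) := by
      have : B * Gi + 1 ≠ 0 := by positivity
      field_simp
    rw [h1]
    refine mul_le_of_le_one_right (by positivity) ?_
    have h2 : 0 ≤ B * Gi := by positivity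
    rw [div_le_one (by linarith)]
    linarith
  have e5 : 2 * (kf f / 2 ^ dg k) * (kp k * J) = B * J := by
    rw [hB]
    ring
  rw [e5] at herr
  calc _ ≤ _ + _ := abs_sub_le _ (B * J) _
    _ ≤ ε / 2 * X + ε / 2 * X := add_le_add herr hfin
    _ = ε * X := by ring

end Pool.Agent.H10.NVK
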