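import Pool.Agent.H23.NVK.SMA

/-!
# The main terms for fixed discriminant, one by one (used in module M_SMC)

This is the proof of `pf_SMA` (Pool/Agent/H23/NVK/SMA.lean) with the statement for single terms.
-/

set_option autoImplicit false

open MeasureTheory Set Filter NumberField NumberField.InfinitePlace
open scoped Real

namespace Pool.Agent.H10.NVK

open Pool.Agent.H23.NVK

open Pool.Agent.H31.CN (GR E lin mo Mt)
open Pool.Agent.H65.CM4 (Pl dg nm)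
open Pool.Agent.H61.NVK (Vk kp c0)
open Pool.Agent.H89.NV (PrI np WW wbar wN wF dR qN RA sd)

theorem key_SMA
    (hNEL : ∀ (k : Type) [Field k] [NumberField k] [IsTotallyReal k], Pool.Agent.H89.NV.T_NEL k)
    (hAXK : T_AXK) (hVCK : T_VCK) (hBRG : T_BRG) (hTRM : T_TRM) (hMNR : T_MNR) (hEQD : T_EQD)
    (k : Type) [Field k] [NumberField k] [IsTotallyReal k] (f : Ideal (𝓞 k))
    (R : Finset (PrI k)) (hf : f ≠ ⊥) (hR : RA k R) :
    ∃ Nn : Finset (PrI k) → Finset (PrI k) → GR,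
      mo 0 0 (∑ n₁ ∈ R.powerset, ∑ n₂ ∈ R.powerset, Nn n₁ n₂) =
        (∏ P ∈ R, (1 - 1 / np P)) ^ 3 * (2 ^ dg k * dR R) ∧
      ∀ (P : Polynomial ℝ) (M : ℝ) (d : Pl k → ℝ), (∀ v, 0 < d v) →
        ∀ n₁ ∈ R.powerset, ∀ n₂ ∈ R.powerset, ∀ m₁ m₂ : Finset (PrI k),
          cm (NP k) P M R m₁ * cm (NP k) P M R m₂ * Pool.Agent.H89.NV.Mn f (qN R)
            (Pool.Agent.H89.NV.nS n₁ * Pool.Agent.H89.NV.nS n₂) m₁ m₂ (wN f R n₁ n₂) d =
          kp k * Ph (NP k) (Vk k) (c0 k) (Real.log (sd f d))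
            (Nn n₁ n₂ * ((cm (NP k) P M R m₁ * cm (NP k) P M R m₂) • ka (NP k) m₁ m₂)) := by
  classical
  obtain ⟨δ, hA⟩ := hAXK k
  obtain ⟨e, he1, he2, he3, he4, he5, he6, he7⟩ := hBRG k
  obtain ⟨T, F, hT, hw, hs⟩ := hNEL k f R hf hR
  obtain ⟨q1, q2, q3, q4, q5, q6, q7, q8⟩ := hEQD k δ hA
  have hR2 : Pool.Agent.H89.NV.idS R ^ 2 ≠ ⊥ := by
    rw [← Ideal.zero_eq_bot]
    exact pow_ne_zero 2 (by rw [Ideal.zero_eq_bot]; exact idS_ne R)
  have hRe : Pool.Agent.H89.NV.idS R ^ 2 = (e (ind R + ind R)).1 := by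
    rw [he3, he6]
    unfold Pool.Agent.H89.NV.idS
    ring
  have hT1 : ∀ x ∈ T, x.1 ≠ ⊥ ∧ x.2 ≠ ⊥ := by
    intro x hx
    obtain ⟨h1, h2⟩ := hT x hx
    constructor
    · rintro h
      rw [h, ← Ideal.zero_eq_bot, zero_dvd_iff, Ideal.zero_eq_bot] at h1
      exact hR2 h1
    · rintro h
      rw [h, ← Ideal.zero_eq_bot, zero_dvd_iff, Ideal.zero_eq_bot] at h2
      exact hR2 h2
  have hg1 : ∀ x ∈ T, ∀ P, P ∉ R → gI e x.1 P = 0 ∧ gI e x.2 P = 0 := by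
    intro x hx P hP
    obtain ⟨h1, h2⟩ := hT x hx
    obtain ⟨h3, h4⟩ := hT1 x hx
    rw [← e_gI e h3, hRe, he5] at h1
    rw [← e_gI e h4, hRe, he5] at h2
    have h5 := h1 P
    have h6 := h2 P
    rw [Finsupp.add_apply, ind_apply, if_neg hP] at h5 h6
    exact ⟨by omega, by omega⟩
  have hmo : mo 0 0 (∑ n₁ ∈ R.powerset, ∑ n₂ ∈ R.powerset, ∑ x ∈ T,
    (F n₁ n₂ x / (nm x.1 * nm x.2)) • E (Real.log (nm x.1))
      (Real.log (nm x.1 * (nm x.2) ^ 2 /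
        (Pool.Agent.H89.NV.nS n₁ * Pool.Agent.H89.NV.nS n₂)))) = (∏ P ∈ R, (1 - 1 / np P)) ^ 3 * (2 ^ dg k * dR R) := by
    rw [← hs, map_sum]
    refine Finset.sum_congr rfl fun n₁ _ => ?_
    rw [map_sum]
    refine Finset.sum_congr rfl fun n₂ _ => ?_
    rw [map_sum]
    refine Finset.sum_congr rfl fun x _ => ?_
    rw [map_smul, Pool.Agent.H31.CN.mo_E, pow_zero, pow_zero, mul_one, smul_eq_mul, mul_one]
  refine ⟨fun n₁ n₂ => ∑ x ∈ T, (F n₁ n₂ x / (nm x.1 * nm x.2)) • E (Real.log (nm x.1))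
      (Real.log (nm x.1 * (nm x.2) ^ 2 /
        (Pool.Agent.H89.NV.nS n₁ * Pool.Agent.H89.NV.nS n₂))), hmo, fun P M d hd => ?_⟩
  have hsd : 0 < sd f d := by
    unfold Pool.Agent.H89.NV.sd Pool.Agent.H61.NVK.sD
    have h1 : 0 < Real.sqrt (∏ v : Pl k, d v) :=
      Real.sqrt_pos.2 (Finset.prod_pos fun v _ => hd v)
    have h2 : 0 < nm f := by
      unfold Pool.Agent.H65.CM4.nm
      have : Ideal.absNorm f ≠ 0 := by
        rw [Ne, Ideal.absNorm_eq_zero_iff]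
        exact hf
      exact_mod_cast Nat.pos_of_ne_zero this
    positivity
  -- one term
  have key : ∀ n₁ ∈ R.powerset, ∀ n₂ ∈ R.powerset, ∀ m₁ m₂ : Finset (PrI k), Disjoint m₁ R →
      Disjoint m₂ R → Pool.Agent.H89.NV.Mn f (qN R)
        (Pool.Agent.H89.NV.nS n₁ * Pool.Agent.H89.NV.nS n₂) m₁ m₂ (wN f R n₁ n₂) d =
      kp k * Ph (NP k) (Vk k) (c0 k) (Real.log (sd f d))
        ((∑ x ∈ T, (F n₁ n₂ x / (nm x.1 * nm x.2)) • E (Real.log (nm x.1))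
          (Real.log (nm x.1 * (nm x.2) ^ 2 /
            (Pool.Agent.H89.NV.nS n₁ * Pool.Agent.H89.NV.nS n₂)))) * ka (NP k) m₁ m₂) := by
    intro n₁ hn₁ n₂ hn₂ m₁ m₂ hm₁ hm₂
    rw [Finset.mem_powerset] at hn₁ hn₂
    have hν : 0 < Pool.Agent.H89.NV.nS n₁ * Pool.Agent.H89.NV.nS n₂ := by
      rw [q2, q2]
      exact mul_pos (hA.nS_pos _) (hA.nS_pos _)
    rw [hTRM k f (qN R) _ m₁ m₂ (wN f R n₁ n₂) d hf hd hν]
    congr 1
    set G : Ideal (𝓞 k) × Ideal (𝓞 k) → (PrI k →₀ ℕ) × (PrI k →₀ ℕ) :=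
      fun x => (gI e x.1, gI e x.2) with hG
    have hinj : Set.InjOn G (T : Set (Ideal (𝓞 k) × Ideal (𝓞 k))) := by
      intro x hx y hy hxy
      rw [hG] at hxy
      simp only [Prod.mk.injEq] at hxy
      obtain ⟨h1, h2⟩ := hT1 x hx
      obtain ⟨h3, h4⟩ := hT1 y hy
      refine Prod.ext ?_ ?_
      · rw [← e_gI e h1, ← e_gI e h3, hxy.1]
      · rw [← e_gI e h2, ← e_gI e h4, hxy.2]
    have hM := hMNR (PrI k) (NP k) (kp k) δ (Vk k) hA (hVCK k) (c0 k)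
      (Pool.Agent.H89.NV.nS n₁ * Pool.Agent.H89.NV.nS n₂) (sd f d ^ 2) m₁ m₂
      (fun e' A => wbar f (qN R) (wN f R n₁ n₂) (idF e') (idF A)) (T.image G)
      (fun x => F n₁ n₂ (idF x.1, idF x.2)) hν (by positivity) ?_ ?_
    · rw [hM, Real.sqrt_sq hsd.le]
      congr 2
      rw [Finset.sum_image hinj]
      refine Finset.sum_congr rfl fun x hx => ?_
      obtain ⟨h1, h2⟩ := hT1 x hx
      have e1 : idF (gI e x.1) = x.1 := by rw [← he1, e_gI e h1]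
      have e2 : idF (gI e x.2) = x.2 := by rw [← he1, e_gI e h2]
      have e3 : (nF (NP k) (gI e x.1) : ℝ) = nm x.1 := by
        rw [← he2, e_gI e h1]
        rfl
      have e4 : (nF (NP k) (gI e x.2) : ℝ) = nm x.2 := by
        rw [← he2, e_gI e h2]
        rfl
      rw [hG]
      simp only [e1, e2, e3, e4]
    · intro y hy P hP
      rw [Finset.mem_image] at hy
      obtain ⟨x, hx, rfl⟩ := hy
      have hPR : P ∉ R := by
        rcases hP with hP | hP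
        · exact fun h => (Finset.disjoint_left.1 hm₁ hP) h
        · exact fun h => (Finset.disjoint_left.1 hm₂ hP) h
      exact hg1 x hx P hPR
    · intro e' A
      have h0 : idF e' ≠ ⊥ := by rw [← he1]; exact (e e').2
      have h0' : idF A ≠ ⊥ := by rw [← he1]; exact (e A).2
      rw [hw n₁ n₂ (idF e') (idF A) hn₁ hn₂ h0 h0', Finset.sum_image hinj]
      refine Finset.sum_congr rfl fun x hx => ?_
      obtain ⟨h1, h2⟩ := hT1 x hx
      have e1 : idF (gI e x.1) = x.1 := by rw [← he1, e_gI e h1]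
      have e2 : idF (gI e x.2) = x.2 := by rw [← he1, e_gI e h2]
      have c1 : x.1 ∣ idF A ↔ ∀ p, gI e x.1 p ≤ A p := by
        rw [← he5, e_gI e h1, he1]
      have c2 : x.2 ∣ idF e' ↔ ∀ p, gI e x.2 p ≤ e' p := by
        rw [← he5, e_gI e h2, he1]
      rw [hG]
      simp only [e1, e2]
      by_cases hc : x.1 ∣ idF A ∧ x.2 ∣ idF e'
      · rw [if_pos hc, if_pos ⟨c1.1 hc.1, c2.1 hc.2⟩]
      · rw [if_neg hc, if_neg (fun h => hc ⟨c1.2 h.1, c2.2 h.2⟩)]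
  -- the sum
  have key2 : ∀ n₁ ∈ R.powerset, ∀ n₂ ∈ R.powerset, ∀ m₁ m₂ : Finset (PrI k),
      cm (NP k) P M R m₁ * cm (NP k) P M R m₂ * Pool.Agent.H89.NV.Mn f (qN R)
        (Pool.Agent.H89.NV.nS n₁ * Pool.Agent.H89.NV.nS n₂) m₁ m₂ (wN f R n₁ n₂) d =
      kp k * Ph (NP k) (Vk k) (c0 k) (Real.log (sd f d))
        ((∑ x ∈ T, (F n₁ n₂ x / (nm x.1 * nm x.2)) • E (Real.log (nm x.1))
          (Real.log (nm x.1 * (nm x.2) ^ 2 /
            (Pool.Agent.H89.NV.nS n₁ * Pool.Agent.H89.NV.nS n₂)))) *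
          ((cm (NP k) P M R m₁ * cm (NP k) P M R m₂) • ka (NP k) m₁ m₂)) := by
    intro n₁ hn₁ n₂ hn₂ m₁ m₂
    by_cases h1 : Disjoint m₁ R
    · by_cases h2 : Disjoint m₂ R
      · rw [key n₁ hn₁ n₂ hn₂ m₁ m₂ h1 h2, mul_smul_comm, map_smul, smul_eq_mul]
        ring
      · have : cm (NP k) P M R m₂ = 0 := by
          unfold cm
          rw [if_neg (fun h => h2 h.2)]
        rw [this]
        simp
    · have : cm (NP k) P M R m₁ = 0 := by
        unfold cm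
        rw [if_neg (fun h => h1 h.2)]
      rw [this]
      simp
  exact key2

end Pool.Agent.H10.NVK
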