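import Pool.Agent.H10.NVK.SSAa

/-!
# Asymptotic expansion of the basic sums over pairs of ideals (module M_SSA)
-/

set_option autoImplicit false

open MeasureTheory Set Filter
open scoped Real Topology

namespace Pool.Agent.H10.NVK.SSA

open Pool.Agent.H23.NVK
open Pool.Agent.H26.CN.SSA (log_pow_le)

theorem int_base {s : ℝ} (h1 : -1 < s) (h2 : s ≤ 1) :
    IntegrableOn (fun u : ℝ => u ^ s * ((1 + u) ^ 4)⁻¹) (Ioi 0) := by
  have hc : ContinuousOn (fun u : ℝ => u ^ s * ((1 + u) ^ 4)⁻¹) (Ioi 0) := by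
    refine ContinuousOn.mul ?_ ?_
    · intro u hu
      exact (Real.continuousAt_rpow_const u s (Or.inl (ne_of_gt hu))).continuousWithinAt
    · refine ContinuousOn.inv₀ (by fun_prop) fun u hu => ?_
      have : (0 : ℝ) < u := hu
      positivity
  rw [← Ioc_union_Ioi_eq_Ioi (zero_le_one : (0 : ℝ) ≤ 1)]
  refine IntegrableOn.union ?_ ?_
  · have h3 : IntegrableOn (fun u : ℝ => u ^ s) (Ioc 0 1) :=
      (intervalIntegrable_iff_integrableOn_Ioc_of_le zero_le_one).1
        (intervalIntegral.intervalIntegrable_rpow' h1)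
    refine Integrable.mono' h3
      ((hc.mono fun u hu => hu.1).aestronglyMeasurable measurableSet_Ioc) ?_
    refine (ae_restrict_iff' measurableSet_Ioc).2 (Eventually.of_forall fun u hu => ?_)
    have hu0 : 0 < u := hu.1
    have h4 : 0 < u ^ s := Real.rpow_pos_of_pos hu0 _
    rw [Real.norm_eq_abs, abs_of_nonneg (by positivity)]
    have h5 : ((1 + u) ^ 4)⁻¹ ≤ 1 := inv_le_one_of_one_le₀ (one_le_pow₀ (by linarith))
    exact mul_le_of_le_one_right h4.le h5
  · have h3 : IntegrableOn (fun u : ℝ => u ^ (-3 : ℝ)) (Ioi 1) :=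
      integrableOn_Ioi_rpow_of_lt (by norm_num) one_pos
    refine Integrable.mono' h3
      ((hc.mono (Ioi_subset_Ioi zero_le_one)).aestronglyMeasurable measurableSet_Ioi) ?_
    refine (ae_restrict_iff' measurableSet_Ioi).2 (Eventually.of_forall fun u hu => ?_)
    have hu1 : 1 < u := hu
    have hu0 : 0 < u := by linarith
    have h4 : 0 < u ^ s := Real.rpow_pos_of_pos hu0 _
    rw [Real.norm_eq_abs, abs_of_nonneg (by positivity)]
    have h5 : ((1 + u) ^ 4)⁻¹ ≤ (u ^ 4)⁻¹ := by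
      apply inv_anti₀ (by positivity)
      exact pow_le_pow_left₀ hu0.le (by linarith) 4
    have h6 : u ^ s ≤ u ^ (1 : ℝ) := Real.rpow_le_rpow_of_exponent_le hu1.le h2
    calc u ^ s * ((1 + u) ^ 4)⁻¹ ≤ u ^ (1 : ℝ) * (u ^ 4)⁻¹ :=
          mul_le_mul h6 h5 (by positivity) (by positivity)
      _ = u ^ (-3 : ℝ) := by
        rw [← Real.rpow_natCast u 4, ← Real.rpow_neg hu0.le, ← Real.rpow_add hu0]
        norm_num

section

variable {α : Type} {N : α → ℕ} {ρ δ : ℝ}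

/-- the large weight -/
noncomputable def wb (N : α → ℕ) (p : (α →₀ ℕ) × (α →₀ ℕ)) : ℝ :=
  (1 + Real.log (nF N p.2)) / ((nF N p.1 : ℝ) * nF N p.2)

theorem wb_bd (h : AxA N ρ δ) (p : (α →₀ ℕ) × (α →₀ ℕ)) : 0 ≤ wb N p ∧ wb N p ≤ 1 := by
  have h1 := one_le h p.1
  have h2 := one_le h p.2
  have hl := Real.log_nonneg h2
  unfold wb
  refine ⟨by positivity, ?_⟩
  rw [div_le_one (by positivity)]
  have h3 := Real.log_le_sub_one_of_pos (by linarith : (0 : ℝ) < nF N p.2)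
  nlinarith

theorem wi_bd (h : AxA N ρ δ) {i : ℕ} (hi : i ≤ 1) (p : (α →₀ ℕ) × (α →₀ ℕ)) :
    0 ≤ wi N i p ∧ wi N i p ≤ wb N p := by
  have h1 := one_le h p.1
  have h2 := one_le h p.2
  have hl := Real.log_nonneg h2
  unfold wb wi
  refine ⟨by positivity, ?_⟩
  apply div_le_div_of_nonneg_right _ (by positivity)
  interval_cases i
  · rw [pow_zero]; linarith
  · rw [pow_one]; linarith

theorem summ_wb (h : AxA N ρ δ) (hS : T_SUM) :
    Summable (fun p : (α →₀ ℕ) × (α →₀ ℕ) => wb N p * (Nx N p ^ 2)⁻¹) := by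
  have h1 := (hS α N ρ δ h).1 2 (by norm_num)
  have h2 := h1.mul_of_nonneg h1 (fun n => Real.rpow_nonneg (Nat.cast_nonneg _) _)
    (fun n => Real.rpow_nonneg (Nat.cast_nonneg _) _)
  refine Summable.of_nonneg_of_le (fun p => mul_nonneg (wb_bd h p).1 (by positivity))
    (fun p => ?_) h2
  have a1 := one_le h p.1
  have a2 := one_le h p.2
  have b1 := h.nF_pos p.1
  have b2 := h.nF_pos p.2
  have e : (nF N p.1 : ℝ) ^ (-2 : ℝ) * (nF N p.2 : ℝ) ^ (-2 : ℝ) =
      (((nF N p.1 : ℝ) * nF N p.2) ^ 2)⁻¹ := by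
    rw [← Real.mul_rpow b1.le b2.le, Real.rpow_neg (by positivity)]
    norm_num
  rw [e]
  have h3 : (nF N p.1 : ℝ) * nF N p.2 ≤ Nx N p := by
    unfold Nx
    apply mul_le_mul_of_nonneg_right _ b2.le
    nlinarith
  calc wb N p * (Nx N p ^ 2)⁻¹ ≤ 1 * (Nx N p ^ 2)⁻¹ :=
        mul_le_mul_of_nonneg_right (wb_bd h p).2 (by positivity)
    _ ≤ _ := by
      rw [one_mul]
      apply inv_anti₀ (by positivity)
      exact pow_le_pow_left₀ (by positivity) h3 2

theorem ctb (h : AxA N ρ δ) : Countable (α →₀ ℕ) := by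
  refine Set.countable_univ_iff.1 ((Set.countable_iUnion fun k : ℕ =>
    (h.fin k).countable).mono fun n _ => Set.mem_iUnion.2 ⟨nF N n, ?_⟩)
  exact le_refl ((nF N n : ℕ) : ℝ)

variable {V : ℝ → ℝ} {C : ℝ} (hA : AxA N ρ δ) (hS : T_SUM) (hC : 0 < C)
  (hb : ∀ x : ℝ, 0 < x → |V x| ≤ C / (1 + x) ^ 2)
  (hb1 : ∀ x : ℝ, 0 < x → |V x - 1| ≤ C * x)
  (hd : ∀ x : ℝ, 0 < x → DifferentiableAt ℝ V x ∧ |deriv V x| ≤ C / (1 + x) ^ 6)
  (hcd : ContinuousOn (deriv V) (Ioi 0))

include hC hb in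
theorem V_le {x y : ℝ} (hx : 0 < x) (hxy : x ≤ y) : |V y| ≤ C * (x ^ 2)⁻¹ := by
  refine (hb y (hx.trans_le hxy)).trans ?_
  rw [div_eq_mul_inv]
  apply mul_le_mul_of_nonneg_left _ hC.le
  apply inv_anti₀ (by positivity)
  exact pow_le_pow_left₀ hx.le (by linarith) 2

include hA hS hC hb in
theorem part_one (Y : ℝ) : Summable (fun x : (α →₀ ℕ) × (α →₀ ℕ) =>
    |V ((nF N x.1 : ℝ) ^ 2 * nF N x.2 * Real.exp (-Y)) * (1 + Real.log (nF N x.2)) /
      ((nF N x.1 : ℝ) * nF N x.2)|) := by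
  have h := (summ_wb hA hS).mul_left (C * (Real.exp (-Y) ^ 2)⁻¹)
  refine Summable.of_nonneg_of_le (fun p => abs_nonneg _) (fun p => ?_) h
  have e : V ((nF N p.1 : ℝ) ^ 2 * nF N p.2 * Real.exp (-Y)) * (1 + Real.log (nF N p.2)) /
      ((nF N p.1 : ℝ) * nF N p.2) = V (Nx N p * Real.exp (-Y)) * wb N p := by
    unfold Nx wb
    ring
  have h3 := (Nx_ge hA p).2.2
  have h5 : 0 < Nx N p * Real.exp (-Y) := by positivity
  rw [e, abs_mul, abs_of_nonneg (wb_bd hA p).1]
  have h4 := V_le hC hb h5 le_rfl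
  calc |V (Nx N p * Real.exp (-Y))| * wb N p ≤ (C * ((Nx N p * Real.exp (-Y)) ^ 2)⁻¹) * wb N p :=
        mul_le_mul_of_nonneg_right h4 (wb_bd hA p).1
    _ = C * (Real.exp (-Y) ^ 2)⁻¹ * (wb N p * (Nx N p ^ 2)⁻¹) := by
      rw [mul_pow, mul_inv]
      ring

include hA hS hC hb hd in
theorem cont_aux (g : (α →₀ ℕ) → ℝ) (hg : ∀ n, |g n| ≤ 1 + Real.log (nF N n)) :
    Continuous (fun Y : ℝ => ∑' x : (α →₀ ℕ) × (α →₀ ℕ),
      V ((nF N x.1 : ℝ) ^ 2 * nF N x.2 * Real.exp (-Y)) * g x.2 /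
        ((nF N x.1 : ℝ) * nF N x.2)) := by
  rw [continuous_iff_continuousAt]
  intro Y₀
  have hc : 0 < Real.exp (-(Y₀ + 1)) := Real.exp_pos _
  have h : ContinuousOn (fun Y : ℝ => ∑' x : (α →₀ ℕ) × (α →₀ ℕ),
      V ((nF N x.1 : ℝ) ^ 2 * nF N x.2 * Real.exp (-Y)) * g x.2 /
        ((nF N x.1 : ℝ) * nF N x.2)) (Iio (Y₀ + 1)) := by
    refine continuousOn_tsum (u := fun x => C * (Real.exp (-(Y₀ + 1)) ^ 2)⁻¹ *
      (wb N x * (Nx N x ^ 2)⁻¹)) (fun x => ?_) ((summ_wb hA hS).mul_left _) (fun x Y hY => ?_)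
    · have b1 := hA.nF_pos x.1
      have b2 := hA.nF_pos x.2
      refine ContinuousOn.div_const (ContinuousOn.mul ?_ continuousOn_const) _
      intro Y _
      refine ContinuousAt.continuousWithinAt ?_
      have hpos : 0 < (nF N x.1 : ℝ) ^ 2 * nF N x.2 * Real.exp (-Y) := by positivity
      exact ContinuousAt.comp (f := fun Y : ℝ => (nF N x.1 : ℝ) ^ 2 * nF N x.2 * Real.exp (-Y))
        (hd _ hpos).1.continuousAt (by fun_prop)
    · have b1 := hA.nF_pos x.1
      have b2 := hA.nF_pos x.2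
      have h3 := (Nx_ge hA x).2.2
      have hY' : Y < Y₀ + 1 := hY
      have e0 : (nF N x.1 : ℝ) ^ 2 * nF N x.2 * Real.exp (-Y) = Nx N x * Real.exp (-Y) := rfl
      have h5 : 0 < Nx N x * Real.exp (-(Y₀ + 1)) := by positivity
      have h6 : Nx N x * Real.exp (-(Y₀ + 1)) ≤ Nx N x * Real.exp (-Y) :=
        mul_le_mul_of_nonneg_left (Real.exp_le_exp.2 (by linarith)) (by linarith)
      have h4 := V_le hC hb h5 h6
      have hl := Real.log_nonneg (one_le hA x.2)
      rw [e0, norm_div, norm_mul, Real.norm_eq_abs, Real.norm_eq_abs, Real.norm_eq_abs,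
        abs_of_pos (show (0 : ℝ) < (nF N x.1 : ℝ) * nF N x.2 by positivity)]
      calc |V (Nx N x * Real.exp (-Y))| * |g x.2| / ((nF N x.1 : ℝ) * nF N x.2) ≤
          (C * ((Nx N x * Real.exp (-(Y₀ + 1))) ^ 2)⁻¹) * (1 + Real.log (nF N x.2)) /
            ((nF N x.1 : ℝ) * nF N x.2) :=
            div_le_div_of_nonneg_right (mul_le_mul h4 (hg _) (abs_nonneg _) (by positivity))
              (by positivity)
        _ = C * (Real.exp (-(Y₀ + 1)) ^ 2)⁻¹ * (wb N x * (Nx N x ^ 2)⁻¹) := by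
          rw [mul_pow, mul_inv]
          unfold wb
          ring
  exact h.continuousAt (Iio_mem_nhds (by linarith))

include hC hb in
theorem V_tend : Tendsto V atTop (𝓝 0) := by
  have h1 : Tendsto (fun x : ℝ => C * (x ^ 2)⁻¹) atTop (𝓝 0) := by
    have h2 : Tendsto (fun x : ℝ => (x ^ 2)⁻¹) atTop (𝓝 0) :=
      tendsto_inv_atTop_zero.comp (tendsto_pow_atTop two_ne_zero)
    simpa using h2.const_mul C
  refine squeeze_zero_norm' ?_ h1
  filter_upwards [eventually_gt_atTop 0] with x hx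
  exact V_le hC hb hx le_rfl

include hC hd in
theorem dV_le {x : ℝ} (hx : 0 < x) : |deriv V x| ≤ C * ((1 + x) ^ 4)⁻¹ := by
  refine (hd x hx).2.trans ?_
  rw [div_eq_mul_inv]
  apply mul_le_mul_of_nonneg_left _ hC.le
  apply inv_anti₀ (by positivity)
  exact pow_le_pow_right₀ (by linarith) (by norm_num)

include hC hd hcd in
theorem dV_int {k : ℕ} (hk : k ≤ 3) :
    IntegrableOn (fun u => Real.log u ^ k * deriv V u) (Ioi 0) := by
  obtain ⟨K, hK, hlog⟩ := log_pow_le 3 (1 / 4) (by norm_num)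
  have hi1 := int_base (s := -(1 / 4)) (by norm_num) (by norm_num)
  have hi2 := int_base (s := 1 / 4) (by norm_num) (by norm_num)
  have hi := ((hi1.add hi2).const_mul (K * C))
  refine Integrable.mono' hi ?_ ?_
  · refine ContinuousOn.aestronglyMeasurable ?_ measurableSet_Ioi
    refine ContinuousOn.mul (ContinuousOn.pow ?_ k) hcd
    exact Real.continuousOn_log.mono fun x hx => ne_of_gt hx
  · refine (ae_restrict_iff' measurableSet_Ioi).2 (Eventually.of_forall fun u hu => ?_)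
    have hu0 : (0 : ℝ) < u := hu
    have h1 := dV_le hC hd hu0
    have h2 : |Real.log u ^ k| ≤ K * (u ^ (-(1 / 4) : ℝ) + u ^ (1 / 4 : ℝ)) := by
      have h3 : |Real.log u ^ k| ≤ (1 + |Real.log u|) ^ 3 := by
        rw [abs_pow]
        calc |Real.log u| ^ k ≤ (1 + |Real.log u|) ^ k := by
              gcongr
              linarith
          _ ≤ _ := pow_le_pow_right₀ (by linarith [abs_nonneg (Real.log u)]) hk
      refine h3.trans ?_
      have p1 : 0 < u ^ (-(1 / 4) : ℝ) := Real.rpow_pos_of_pos hu0 _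
      have p2 : 0 < u ^ (1 / 4 : ℝ) := Real.rpow_pos_of_pos hu0 _
      by_cases hu1 : u ≤ 1
      · have h4 := hlog u⁻¹ (one_le_inv_iff₀.2 ⟨hu0, hu1⟩)
        rw [Real.log_inv, Real.inv_rpow hu0.le, ← Real.rpow_neg hu0.le] at h4
        rw [abs_of_nonpos (Real.log_nonpos hu0.le hu1)]
        nlinarith
      · rw [not_le] at hu1
        have h4 := hlog u hu1.le
        rw [abs_of_nonneg (Real.log_nonneg hu1.le)]
        nlinarith
    rw [Real.norm_eq_abs, abs_mul]
    calc |Real.log u ^ k| * |deriv V u| ≤ (K * (u ^ (-(1 / 4) : ℝ) + u ^ (1 / 4 : ℝ))) *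
          (C * ((1 + u) ^ 4)⁻¹) := by
          refine mul_le_mul h2 h1 (abs_nonneg _) ?_
          have p1 : 0 < u ^ (-(1 / 4) : ℝ) := Real.rpow_pos_of_pos hu0 _
          have p2 : 0 < u ^ (1 / 4 : ℝ) := Real.rpow_pos_of_pos hu0 _
          positivity
      _ = _ := by
        simp only [Pi.add_apply]
        ring

include hC hb hd hcd in
theorem tail_int {a : ℝ} (ha : 0 < a) : ∫ u in Ici a, deriv V u = -V a := by
  rw [integral_Ici_eq_integral_Ioi]
  have h0 := dV_int hC hd hcd (k := 0) (by norm_num)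
  simp only [pow_zero, one_mul] at h0
  have h := integral_Ioi_of_hasDerivAt_of_tendsto' (f := V) (f' := deriv V) (a := a)
    (m := 0) (fun x hx => (hd x (lt_of_lt_of_le ha hx)).1.hasDerivAt)
    (h0.mono_set (Ioi_subset_Ioi ha.le)) (V_tend hC hb)
  rw [h, zero_sub]

include hC hb hb1 hd hcd in
theorem total_int : ∫ u in Ioi 0, deriv V u = -1 := by
  have h0 := dV_int hC hd hcd (k := 0) (by norm_num)
  simp only [pow_zero, one_mul] at h0
  have hcont : ContinuousWithinAt (fun x => if x = 0 then 1 else V x) (Ici (0 : ℝ)) 0 := by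
    rw [Metric.continuousWithinAt_iff]
    intro ε hε
    refine ⟨ε / C, by positivity, fun x hx hxd => ?_⟩
    simp only [if_true]
    by_cases hx0 : x = 0
    · rw [if_pos hx0, dist_self]
      exact hε
    · rw [if_neg hx0]
      have hx' : 0 < x := lt_of_le_of_ne hx (Ne.symm hx0)
      rw [Real.dist_eq, sub_zero, abs_of_pos hx'] at hxd
      rw [Real.dist_eq]
      refine (hb1 x hx').trans_lt ?_
      rw [lt_div_iff₀ hC] at hxd
      linarith
  have h := integral_Ioi_of_hasDerivAt_of_tendsto (f := fun x => if x = 0 then 1 else V x)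
    (f' := deriv V) (a := 0) (m := 0) hcont (fun x hx => by
      have hx' : (0 : ℝ) < x := hx
      refine ((hd x hx').1.hasDerivAt).congr_of_eventuallyEq ?_
      filter_upwards [Ioi_mem_nhds hx'] with y hy
      rw [if_neg (ne_of_gt hy)]) h0 (by
      refine (V_tend hC hb).congr' ?_
      filter_upwards [eventually_gt_atTop 0] with x hx
      rw [if_neg (ne_of_gt hx)])
  rw [h]
  simp

include hA hS hC hb hd hcd in
/-- the sum as an integral of the summatory function -/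
theorem fub {i : ℕ} (hi : i ≤ 1) {Z : ℝ} (hZ : 0 < Z) :
    ∑' p : (α →₀ ℕ) × (α →₀ ℕ), wi N i p * V (Nx N p / Z) =
      -∫ u in Ioi 0, Di N i (u * Z) * deriv V u := by
  have := ctb hA
  obtain ⟨F, hF⟩ : ∃ F : (α →₀ ℕ) × (α →₀ ℕ) → ℝ → ℝ, F = fun p =>
    (Ici (Nx N p / Z)).indicator (fun u => wi N i p * deriv V u) := ⟨_, rfl⟩
  have h0 := dV_int hC hd hcd (k := 0) (by norm_num)
  simp only [pow_zero, one_mul] at h0
  have hint : ∀ p, IntegrableOn (F p) (Ioi 0) := fun p => by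
    rw [hF]
    exact (h0.const_mul (wi N i p)).indicator measurableSet_Ici
  have hval : ∀ p, ∫ u in Ioi 0, F p u = -(wi N i p * V (Nx N p / Z)) := by
    intro p
    have h3 := (Nx_ge hA p).2.2
    have ha : 0 < Nx N p / Z := by positivity
    simp only [hF]
    rw [setIntegral_indicator measurableSet_Ici,
      inter_eq_self_of_subset_right (Ici_subset_Ioi.2 ha), integral_const_mul,
      tail_int hC hb hd hcd ha]
    ring
  obtain ⟨W0, hW0⟩ : ∃ W0, W0 = ∫ u in Ioi (0 : ℝ), u ^ (0 : ℝ) * ((1 + u) ^ 4)⁻¹ := ⟨_, rfl⟩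
  have hi0 := int_base (s := 0) (by norm_num) (by norm_num)
  have hnorm : ∀ p, ∫ u in Ioi 0, ‖F p u‖ ≤ C * Z ^ 2 * W0 * (wb N p * (Nx N p ^ 2)⁻¹) := by
    intro p
    have h3 := (Nx_ge hA p).2.2
    have ha : 0 < Nx N p / Z := by positivity
    have e1 : ∀ u, ‖F p u‖ =
        (Ici (Nx N p / Z)).indicator (fun u => wi N i p * |deriv V u|) u := by
      intro u
      simp only [hF]
      by_cases hu : u ∈ Ici (Nx N p / Z)
      · rw [indicator_of_mem hu, indicator_of_mem hu, Real.norm_eq_abs, abs_mul,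
          abs_of_nonneg (wi_bd hA hi p).1]
      · rw [indicator_of_notMem hu, indicator_of_notMem hu, norm_zero]
    simp only [e1]
    rw [setIntegral_indicator measurableSet_Ici,
      inter_eq_self_of_subset_right (Ici_subset_Ioi.2 ha), integral_const_mul]
    have h5 : ∫ u in Ici (Nx N p / Z), |deriv V u| ≤ C * ((Nx N p / Z) ^ 2)⁻¹ * W0 := by
      rw [integral_Ici_eq_integral_Ioi, hW0, ← integral_const_mul]
      calc ∫ u in Ioi (Nx N p / Z), |deriv V u| ≤ ∫ u in Ioi (Nx N p / Z),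
            C * ((Nx N p / Z) ^ 2)⁻¹ * (u ^ (0 : ℝ) * ((1 + u) ^ 4)⁻¹) := by
            refine setIntegral_mono_on ((h0.mono_set (Ioi_subset_Ioi ha.le)).abs)
              ((hi0.mono_set (Ioi_subset_Ioi ha.le)).const_mul _) measurableSet_Ioi
              fun u hu => ?_
            have hu0 : 0 < u := ha.trans hu
            refine (hd u hu0).2.trans ?_
            rw [Real.rpow_zero, one_mul, div_eq_mul_inv, mul_assoc, ← mul_inv]
            apply mul_le_mul_of_nonneg_left _ hC.le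
            apply inv_anti₀ (by positivity)
            have h6 : (Nx N p / Z) ^ 2 ≤ (1 + u) ^ 2 := by
              have h7 : Nx N p / Z < u := hu
              exact pow_le_pow_left₀ ha.le (by linarith) 2
            calc (Nx N p / Z) ^ 2 * (1 + u) ^ 4 ≤ (1 + u) ^ 2 * (1 + u) ^ 4 :=
                  mul_le_mul_of_nonneg_right h6 (by positivity)
              _ = _ := by ring
        _ ≤ _ := by
          refine setIntegral_mono_set (hi0.const_mul _) ?_
            (Ioi_subset_Ioi ha.le).eventuallyLE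
          refine (ae_restrict_iff' measurableSet_Ioi).2 (Eventually.of_forall fun u hu => ?_)
          have : (0 : ℝ) < u := hu
          simp only [Pi.zero_apply]
          positivity
    calc wi N i p * ∫ u in Ici (Nx N p / Z), |deriv V u| ≤
        wb N p * (C * ((Nx N p / Z) ^ 2)⁻¹ * W0) :=
          mul_le_mul (wi_bd hA hi p).2 h5 (setIntegral_nonneg measurableSet_Ici
            fun u _ => abs_nonneg _) (wb_bd hA p).1
      _ = _ := by
        rw [div_pow, inv_div]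
        ring
  have hsum : Summable fun p => ∫ u in Ioi 0, ‖F p u‖ :=
    Summable.of_nonneg_of_le (fun p => integral_nonneg fun u => norm_nonneg _) hnorm
      ((summ_wb hA hS).mul_left _)
  have h := hasSum_integral_of_summable_integral_norm hint hsum
  have h1 := h.tsum_eq
  simp only [hval] at h1
  rw [tsum_neg] at h1
  rw [← neg_eq_iff_eq_neg, h1]
  refine setIntegral_congr_fun measurableSet_Ioi fun u hu => ?_
  have hu0 : (0 : ℝ) < u := hu
  rw [tsum_eq_sum (s := Sx N (u * Z))]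
  · unfold Di
    rw [Finset.sum_mul]
    refine Finset.sum_congr rfl fun p hp => ?_
    simp only [hF]
    rw [indicator_of_mem]
    rw [mem_Ici, div_le_iff₀ hZ]
    exact (mem_Sx hA).1 hp
  · intro p hp
    simp only [hF]
    rw [indicator_of_notMem]
    intro h2
    rw [mem_Ici, div_le_iff₀ hZ] at h2
    exact hp ((mem_Sx hA).2 h2)

include hA hS hC hb hd hcd in
/-- the error of the integral -/
theorem err_int {i : ℕ} (hi : i ≤ 1) (c0 c1 c2 c3 K c : ℝ) (hK : 0 < K) (hc : 0 < c)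
    (hc4 : c ≤ 1 / 4)
    (hP : ∀ x : ℝ, 0 < x → |Di N i x - (c0 + c1 * Real.log x + c2 * Real.log x ^ 2 +
      c3 * Real.log x ^ 3)| ≤ K * x ^ (-c)) (Y : ℝ) :
    |(∑' p : (α →₀ ℕ) × (α →₀ ℕ), wi N i p * V (Nx N p / Real.exp Y)) - -∫ u in Ioi 0, (c0 +
      c1 * (Y + Real.log u) + c2 * (Y + Real.log u) ^ 2 + c3 * (Y + Real.log u) ^ 3) *
      deriv V u| ≤ K * C * (∫ u in Ioi (0 : ℝ), u ^ (-c) * ((1 + u) ^ 4)⁻¹) *
      Real.exp (-(c * Y)) := by
  have hZ : 0 < Real.exp Y := Real.exp_pos Y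
  rw [fub hA hS hC hb hd hcd hi hZ]
  have g0 := dV_int hC hd hcd (k := 0) (by norm_num)
  have g1 := dV_int hC hd hcd (k := 1) (by norm_num)
  have g2 := dV_int hC hd hcd (k := 2) (by norm_num)
  have g3 := dV_int hC hd hcd (k := 3) (by norm_num)
  have hi1 := int_base (s := -c) (by linarith) (by linarith)
  have hmain : IntegrableOn (fun u => (c0 + c1 * (Y + Real.log u) + c2 * (Y + Real.log u) ^ 2 +
      c3 * (Y + Real.log u) ^ 3) * deriv V u) (Ioi 0) := by
    have h := (((g0.const_mul (c0 + c1 * Y + c2 * Y ^ 2 + c3 * Y ^ 3)).add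
      (g1.const_mul (c1 + 2 * c2 * Y + 3 * c3 * Y ^ 2))).add
      (g2.const_mul (c2 + 3 * c3 * Y))).add (g3.const_mul c3)
    refine h.congr (Eventually.of_forall fun u => ?_)
    simp only [Pi.add_apply]
    ring
  -- the integrability of the summatory function
  have hDm : AEStronglyMeasurable (fun u => Di N i (u * Real.exp Y) * deriv V u)
      (volume.restrict (Ioi 0)) := by
    refine AEStronglyMeasurable.mul ?_ (hcd.aestronglyMeasurable measurableSet_Ioi)
    have hmono : Monotone (fun u => Di N i (u * Real.exp Y)) := by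
      intro a b hab
      simp only
      unfold Di
      refine Finset.sum_le_sum_of_subset_of_nonneg ?_ fun p _ _ => (wi_bd hA hi p).1
      intro p hp
      refine (mem_Sx hA).2 (((mem_Sx hA).1 hp).trans ?_)
      exact mul_le_mul_of_nonneg_right hab hZ.le
    exact hmono.measurable.aestronglyMeasurable
  have hbound : ∀ u : ℝ, 0 < u → |(Di N i (u * Real.exp Y) - (c0 + c1 * (Y + Real.log u) +
      c2 * (Y + Real.log u) ^ 2 + c3 * (Y + Real.log u) ^ 3)) * deriv V u| ≤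
      K * C * Real.exp (-(c * Y)) * (u ^ (-c) * ((1 + u) ^ 4)⁻¹) := by
    intro u hu
    have h1 := hP (u * Real.exp Y) (by positivity)
    rw [Real.log_mul hu.ne' hZ.ne', Real.log_exp, add_comm (Real.log u) Y] at h1
    have h2 : (u * Real.exp Y) ^ (-c) = u ^ (-c) * Real.exp (-(c * Y)) := by
      rw [Real.mul_rpow hu.le hZ.le, ← Real.exp_mul]
      congr 2
      ring
    rw [h2] at h1
    rw [abs_mul]
    calc _ ≤ (K * (u ^ (-c) * Real.exp (-(c * Y)))) * (C * ((1 + u) ^ 4)⁻¹) :=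
          mul_le_mul h1 (dV_le hC hd hu) (abs_nonneg _) (by positivity)
      _ = _ := by ring
  have hdiff : IntegrableOn (fun u => (Di N i (u * Real.exp Y) - (c0 + c1 * (Y + Real.log u) +
      c2 * (Y + Real.log u) ^ 2 + c3 * (Y + Real.log u) ^ 3)) * deriv V u) (Ioi 0) := by
    refine Integrable.mono' (hi1.const_mul (K * C * Real.exp (-(c * Y)))) ?_ ?_
    · have := hDm.sub hmain.aestronglyMeasurable
      refine this.congr (Eventually.of_forall fun u => ?_)
      simp only [Pi.sub_apply]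
      ring
    · refine (ae_restrict_iff' measurableSet_Ioi).2 (Eventually.of_forall fun u hu => ?_)
      exact hbound u hu
  have hD : IntegrableOn (fun u => Di N i (u * Real.exp Y) * deriv V u) (Ioi 0) := by
    refine (hdiff.add hmain).congr (Eventually.of_forall fun u => ?_)
    simp only [Pi.add_apply]
    ring
  have e : (-∫ u in Ioi 0, Di N i (u * Real.exp Y) * deriv V u) - -∫ u in Ioi 0, (c0 +
      c1 * (Y + Real.log u) + c2 * (Y + Real.log u) ^ 2 + c3 * (Y + Real.log u) ^ 3) *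
      deriv V u = -∫ u in Ioi 0, (Di N i (u * Real.exp Y) - (c0 + c1 * (Y + Real.log u) +
      c2 * (Y + Real.log u) ^ 2 + c3 * (Y + Real.log u) ^ 3)) * deriv V u := by
    have := integral_sub hD hmain
    rw [← neg_sub_neg, neg_neg, neg_neg, ← neg_sub, ← this]
    congr 1
    refine setIntegral_congr_fun measurableSet_Ioi fun u _ => ?_
    ring
  rw [e, abs_neg]
  have h1 := norm_integral_le_of_norm_le (μ := volume.restrict (Ioi (0 : ℝ)))
    (f := fun u => (Di N i (u * Real.exp Y) - (c0 + c1 * (Y + Real.log u) +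
      c2 * (Y + Real.log u) ^ 2 + c3 * (Y + Real.log u) ^ 3)) * deriv V u)
    (hi1.const_mul (K * C * Real.exp (-(c * Y))))
    ((ae_restrict_iff' measurableSet_Ioi).2 (Eventually.of_forall fun u hu => hbound u hu))
  rw [Real.norm_eq_abs] at h1
  refine h1.trans (le_of_eq ?_)
  rw [integral_const_mul]
  ring

end

theorem int_lin {μ : Measure ℝ} {f0 f1 f2 f3 : ℝ → ℝ} (h0 : Integrable f0 μ)
    (h1 : Integrable f1 μ) (h2 : Integrable f2 μ) (h3 : Integrable f3 μ) (c0 c1 c2 c3 : ℝ) :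
    ∫ u, (c0 * f0 u + c1 * f1 u + c2 * f2 u + c3 * f3 u) ∂μ =
      c0 * (∫ u, f0 u ∂μ) + c1 * (∫ u, f1 u ∂μ) + c2 * (∫ u, f2 u ∂μ) + c3 * (∫ u, f3 u ∂μ) := by
  have i0 : Integrable (fun u => c0 * f0 u) μ := h0.const_mul c0
  have i1 : Integrable (fun u => c1 * f1 u) μ := h1.const_mul c1
  have i2 : Integrable (fun u => c2 * f2 u) μ := h2.const_mul c2
  have i3 : Integrable (fun u => c3 * f3 u) μ := h3.const_mul c3
  have i01 : Integrable (fun u => c0 * f0 u + c1 * f1 u) μ := i0.add i1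
  have i012 : Integrable (fun u => c0 * f0 u + c1 * f1 u + c2 * f2 u) μ := i01.add i2
  rw [integral_add i012 i3, integral_add i01 i2, integral_add i0 i1, integral_const_mul,
    integral_const_mul, integral_const_mul, integral_const_mul]

end Pool.Agent.H10.NVK.SSA

namespace Pool.Agent.H10.NVK

open Pool.Agent.H23.NVK
open Pool.Agent.H10.NVK.SSA

theorem pf_SSA (hE : T_EXP) (hS : T_SUM) : T_SSA := by
  intro α N ρ δ V hA hV
  obtain ⟨C1, hC1, hb1'⟩ := hV.one
  obtain ⟨C2, hC2, hb'⟩ := hV.dec 2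
  obtain ⟨C3, hC3, hd'⟩ := hV.der 6
  have hcd := hV.cont
  obtain ⟨C, hC, c1, c2, c3⟩ : ∃ C : ℝ, 0 < C ∧ C1 ≤ C ∧ C2 ≤ C ∧ C3 ≤ C :=
    ⟨C1 + C2 + C3, by positivity, by linarith, by linarith, by linarith⟩
  have hb1 : ∀ x : ℝ, 0 < x → |V x - 1| ≤ C * x := fun x hx =>
    (hb1' x hx).trans (mul_le_mul_of_nonneg_right c1 hx.le)
  have hb : ∀ x : ℝ, 0 < x → |V x| ≤ C / (1 + x) ^ 2 := fun x hx =>
    (hb' x hx).trans (div_le_div_of_nonneg_right c2 (by positivity))
  have hd : ∀ x : ℝ, 0 < x → DifferentiableAt ℝ V x ∧ |deriv V x| ≤ C / (1 + x) ^ 6 :=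
    fun x hx => ⟨(hd' x hx).1, (hd' x hx).2.trans (div_le_div_of_nonneg_right c3 (by positivity))⟩
  refine ⟨part_one hA hS hC hb, ⟨?_, ?_⟩, ?_⟩
  · have h := cont_aux hA hS hC hb hd (fun _ => 1) (fun n => by
      rw [abs_one]
      linarith [Real.log_nonneg (one_le hA n)])
    simp only [mul_one] at h
    exact h
  · exact cont_aux hA hS hC hb hd (fun n => Real.log (nF N n)) (fun n => by
      rw [abs_of_nonneg (Real.log_nonneg (one_le hA n))]
      linarith)
  obtain ⟨a, b, K0, e0, hK0, he0, he04, h0⟩ := D_zero hA hE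
  obtain ⟨a', b', c', K1, e1, hK1, he1, he14, h1⟩ := D_one hA hE
  have g0 := dV_int hC hd hcd (k := 0) (by norm_num)
  have g1 := dV_int hC hd hcd (k := 1) (by norm_num)
  have g2 := dV_int hC hd hcd (k := 2) (by norm_num)
  have g3 := dV_int hC hd hcd (k := 3) (by norm_num)
  have m0 : ∫ u in Ioi 0, Real.log u ^ 0 * deriv V u = -1 := by
    simp only [pow_zero, one_mul]
    exact total_int hC hb hb1 hd hcd
  have hlin : ∀ c0 c1 c2 c3 : ℝ, ∫ u in Ioi 0, (c0 * (Real.log u ^ 0 * deriv V u) +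
      c1 * (Real.log u ^ 1 * deriv V u) + c2 * (Real.log u ^ 2 * deriv V u) +
      c3 * (Real.log u ^ 3 * deriv V u)) =
      c0 * (∫ u in Ioi 0, Real.log u ^ 0 * deriv V u) +
      c1 * (∫ u in Ioi 0, Real.log u ^ 1 * deriv V u) +
      c2 * (∫ u in Ioi 0, Real.log u ^ 2 * deriv V u) +
      c3 * (∫ u in Ioi 0, Real.log u ^ 3 * deriv V u) := by
    intro c0 c1 c2 c3
    exact int_lin g0 g1 g2 g3 c0 c1 c2 c3
  obtain ⟨m1, hm1⟩ : ∃ m1, m1 = ∫ u in Ioi 0, Real.log u ^ 1 * deriv V u := ⟨_, rfl⟩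
  obtain ⟨m2, hm2⟩ : ∃ m2, m2 = ∫ u in Ioi 0, Real.log u ^ 2 * deriv V u := ⟨_, rfl⟩
  obtain ⟨m3, hm3⟩ : ∃ m3, m3 = ∫ u in Ioi 0, Real.log u ^ 3 * deriv V u := ⟨_, rfl⟩
  rw [m0, ← hm1, ← hm2, ← hm3] at hlin
  have hexpr : ∀ (c0 c1 c2 c3 Y : ℝ), -∫ u in Ioi 0, (c0 + c1 * (Y + Real.log u) +
      c2 * (Y + Real.log u) ^ 2 + c3 * (Y + Real.log u) ^ 3) * deriv V u =
      (c0 + c1 * Y + c2 * Y ^ 2 + c3 * Y ^ 3) - (c1 + 2 * c2 * Y + 3 * c3 * Y ^ 2) * m1 -
      (c2 + 3 * c3 * Y) * m2 - c3 * m3 := by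
    intro c0 c1 c2 c3 Y
    have h := hlin (c0 + c1 * Y + c2 * Y ^ 2 + c3 * Y ^ 3) (c1 + 2 * c2 * Y + 3 * c3 * Y ^ 2)
      (c2 + 3 * c3 * Y) c3
    have e : ∫ u in Ioi 0, (c0 + c1 * (Y + Real.log u) +
        c2 * (Y + Real.log u) ^ 2 + c3 * (Y + Real.log u) ^ 3) * deriv V u =
        ∫ u in Ioi 0, ((c0 + c1 * Y + c2 * Y ^ 2 + c3 * Y ^ 3) * (Real.log u ^ 0 * deriv V u) +
        (c1 + 2 * c2 * Y + 3 * c3 * Y ^ 2) * (Real.log u ^ 1 * deriv V u) +
        (c2 + 3 * c3 * Y) * (Real.log u ^ 2 * deriv V u) +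
        c3 * (Real.log u ^ 3 * deriv V u)) := by
      refine setIntegral_congr_fun measurableSet_Ioi fun u _ => ?_
      ring
    rw [e, h]
    ring
  obtain ⟨c, hc⟩ : ∃ c, c = min e0 e1 := ⟨_, rfl⟩
  have hc0 : 0 < c := by
    rw [hc]
    exact lt_min he0 he1
  have hce0 : c ≤ e0 := by
    rw [hc]
    exact min_le_left _ _
  have hce1 : c ≤ e1 := by
    rw [hc]
    exact min_le_right _ _
  have hWn : ∀ s : ℝ, 0 ≤ ∫ u in Ioi (0 : ℝ), u ^ s * ((1 + u) ^ 4)⁻¹ := fun s =>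
    setIntegral_nonneg measurableSet_Ioi fun u hu => by
      have : (0 : ℝ) < u := hu
      positivity
  obtain ⟨W0, hW0⟩ : ∃ W0, W0 = ∫ u in Ioi (0 : ℝ), u ^ (-e0) * ((1 + u) ^ 4)⁻¹ := ⟨_, rfl⟩
  obtain ⟨W1, hW1⟩ : ∃ W1, W1 = ∫ u in Ioi (0 : ℝ), u ^ (-e1) * ((1 + u) ^ 4)⁻¹ := ⟨_, rfl⟩
  have hW0n : 0 ≤ W0 := by
    rw [hW0]
    exact hWn _
  have hW1n : 0 ≤ W1 := by
    rw [hW1]
    exact hWn _
  refine ⟨a - ρ ^ 2 / 2 * m1, b - a * m1 - ρ ^ 2 / 4 * m2, a' - ρ ^ 2 / 4 * m1,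
    b' - 2 * a' * m1 - ρ ^ 2 / 4 * m2, c' - b' * m1 - a' * m2 - ρ ^ 2 / 12 * m3,
    K0 * C * W0 + K1 * C * W1 + 1, c, by positivity, hc0, fun Y hY => ⟨?_, ?_⟩⟩
  · have h := err_int hA hS hC hb hd hcd (i := 0) (by norm_num) b a (ρ ^ 2 / 4) 0 K0 e0 hK0 he0
      he04 (fun x hx => by
        have := h0 x hx
        rwa [show ρ ^ 2 * Real.log x ^ 2 / 4 + a * Real.log x + b = b + a * Real.log x +
          ρ ^ 2 / 4 * Real.log x ^ 2 + 0 * Real.log x ^ 3 by ring] at this) Y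
    rw [hexpr] at h
    have e : S0 N V Y = ∑' p : (α →₀ ℕ) × (α →₀ ℕ), wi N 0 p * V (Nx N p / Real.exp Y) := by
      unfold S0
      refine tsum_congr fun p => ?_
      unfold wi Nx
      rw [pow_zero, Real.exp_neg, ← div_eq_mul_inv]
      ring
    rw [← e] at h
    have e2 : ρ ^ 2 * Y ^ 2 / 4 + (a - ρ ^ 2 / 2 * m1) * Y + (b - a * m1 - ρ ^ 2 / 4 * m2) =
        (b + a * Y + ρ ^ 2 / 4 * Y ^ 2 + 0 * Y ^ 3) -
        (a + 2 * (ρ ^ 2 / 4) * Y + 3 * 0 * Y ^ 2) * m1 -
        (ρ ^ 2 / 4 + 3 * 0 * Y) * m2 - 0 * m3 := by ring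
    rw [e2]
    refine h.trans ?_
    rw [← hW0]
    have h5 : Real.exp (-(e0 * Y)) ≤ Real.exp (-(c * Y)) := by
      apply Real.exp_le_exp.2
      have := mul_le_mul_of_nonneg_right hce0 hY
      linarith
    refine mul_le_mul ?_ h5 (Real.exp_pos _).le (by positivity)
    have : 0 ≤ K1 * C * W1 := by positivity
    linarith
  · have h := err_int hA hS hC hb hd hcd (i := 1) (by norm_num) c' b' a' (ρ ^ 2 / 12) K1 e1 hK1
      he1 he14 (fun x hx => by
        have := h1 x hx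
        rwa [show ρ ^ 2 * Real.log x ^ 3 / 12 + a' * Real.log x ^ 2 + b' * Real.log x + c' =
          c' + b' * Real.log x + a' * Real.log x ^ 2 + ρ ^ 2 / 12 * Real.log x ^ 3 by ring]
          at this) Y
    rw [hexpr] at h
    have e : S1 N V Y = ∑' p : (α →₀ ℕ) × (α →₀ ℕ), wi N 1 p * V (Nx N p / Real.exp Y) := by
      unfold S1
      refine tsum_congr fun p => ?_
      unfold wi Nx
      rw [pow_one, Real.exp_neg, ← div_eq_mul_inv]
      ring
    rw [← e] at h
    have e2 : ρ ^ 2 * Y ^ 3 / 12 + (a' - ρ ^ 2 / 4 * m1) * Y ^ 2 +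
        (b' - 2 * a' * m1 - ρ ^ 2 / 4 * m2) * Y +
        (c' - b' * m1 - a' * m2 - ρ ^ 2 / 12 * m3) =
        (c' + b' * Y + a' * Y ^ 2 + ρ ^ 2 / 12 * Y ^ 3) -
        (b' + 2 * a' * Y + 3 * (ρ ^ 2 / 12) * Y ^ 2) * m1 -
        (a' + 3 * (ρ ^ 2 / 12) * Y) * m2 - ρ ^ 2 / 12 * m3 := by ring
    rw [e2]
    refine h.trans ?_
    rw [← hW1]
    have h5 : Real.exp (-(e1 * Y)) ≤ Real.exp (-(c * Y)) := by
      apply Real.exp_le_exp.2
      have := mul_le_mul_of_nonneg_right hce1 hY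
      linarith
    refine mul_le_mul ?_ h5 (Real.exp_pos _).le (by positivity)
    have : 0 ≤ K0 * C * W0 := by positivity
    linarith

end Pool.Agent.H10.NVK
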