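import Pool.Agent.H26.CN.SSA1
import Pool.Agent.H23.NVK.MTargets

/-!
# Summatory functions over pairs of ideals: the hyperbola method (module M_SSA, first part)
-/

set_option autoImplicit false

open MeasureTheory Set Filter
open scoped Real Topology

namespace Pool.Agent.H10.NVK.SSA

open Pool.Agent.H23.NVK
open Pool.Agent.H26.CN.SSA (log_pow_le)

/-! ### Polynomials of the logarithm up to a power saving -/

/-- `f` is `p (log y)` up to a power saving, and `p` grows polynomially -/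
structure Ap (f p : ℝ → ℝ) : Prop where
  err : ∃ C c : ℝ, 0 < C ∧ 0 < c ∧ ∀ y : ℝ, 1 ≤ y → |f y - p (Real.log y)| ≤ C * y ^ (-c)
  bd : ∃ (K : ℝ) (k : ℕ), 0 < K ∧ ∀ L : ℝ, |p L| ≤ K * (1 + |L|) ^ k

theorem Ap.cst (a : ℝ) : Ap (fun _ => a) (fun _ => a) := by
  refine ⟨⟨1, 1, one_pos, one_pos, fun y hy => ?_⟩, ⟨|a| + 1, 0, by positivity, fun L => ?_⟩⟩
  · rw [sub_self, abs_zero]
    positivity
  · rw [pow_zero, mul_one]
    linarith

theorem Ap.log : Ap Real.log (fun L => L) := by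
  refine ⟨⟨1, 1, one_pos, one_pos, fun y hy => ?_⟩, ⟨1, 1, one_pos, fun L => ?_⟩⟩
  · rw [sub_self, abs_zero]
    positivity
  · rw [pow_one, one_mul]
    linarith

theorem exp_le {y c d : ℝ} (hy : 1 ≤ y) (h : d ≤ c) : y ^ (-c) ≤ y ^ (-d) :=
  Real.rpow_le_rpow_of_exponent_le hy (by linarith)

theorem Ap.add {f p g q : ℝ → ℝ} (hf : Ap f p) (hg : Ap g q) :
    Ap (fun y => f y + g y) (fun L => p L + q L) := by
  obtain ⟨⟨C, c, hC, hc, h1⟩, ⟨K, k, hK, h2⟩⟩ := hf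
  obtain ⟨⟨C', c', hC', hc', h1'⟩, ⟨K', k', hK', h2'⟩⟩ := hg
  refine ⟨⟨C + C', min c c', by positivity, lt_min hc hc', fun y hy => ?_⟩,
    ⟨K + K', max k k', by positivity, fun L => ?_⟩⟩
  · have e : f y + g y - (p (Real.log y) + q (Real.log y)) =
        (f y - p (Real.log y)) + (g y - q (Real.log y)) := by ring
    rw [e, add_mul]
    refine (abs_add_le _ _).trans (add_le_add ((h1 y hy).trans ?_) ((h1' y hy).trans ?_))
    · exact mul_le_mul_of_nonneg_left (exp_le hy (min_le_left _ _)) hC.le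
    · exact mul_le_mul_of_nonneg_left (exp_le hy (min_le_right _ _)) hC'.le
  · have hL : 1 ≤ 1 + |L| := by linarith [abs_nonneg L]
    rw [add_mul]
    refine (abs_add_le _ _).trans (add_le_add ((h2 L).trans ?_) ((h2' L).trans ?_))
    · exact mul_le_mul_of_nonneg_left (pow_le_pow_right₀ hL (le_max_left _ _)) hK.le
    · exact mul_le_mul_of_nonneg_left (pow_le_pow_right₀ hL (le_max_right _ _)) hK'.le

theorem Ap.mul {f p g q : ℝ → ℝ} (hf : Ap f p) (hg : Ap g q) :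
    Ap (fun y => f y * g y) (fun L => p L * q L) := by
  obtain ⟨⟨C, c, hC, hc, h1⟩, ⟨K, k, hK, h2⟩⟩ := hf
  obtain ⟨⟨C', c', hC', hc', h1'⟩, ⟨K', k', hK', h2'⟩⟩ := hg
  obtain ⟨d, hd⟩ : ∃ d, d = min c c' / 2 := ⟨_, rfl⟩
  have hd0 : 0 < d := by
    rw [hd]
    have := lt_min hc hc'
    linarith
  have hdc : 2 * d ≤ c := by rw [hd]; linarith [min_le_left c c']
  have hdc' : 2 * d ≤ c' := by rw [hd]; linarith [min_le_right c c']
  obtain ⟨D, hD, h3⟩ := log_pow_le k d hd0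
  obtain ⟨D', hD', h3'⟩ := log_pow_le k' d hd0
  refine ⟨⟨C * C' + C * K' * D' + K * D * C', d, by positivity, hd0, fun y hy => ?_⟩,
    ⟨K * K', k + k', by positivity, fun L => ?_⟩⟩
  · have hy0 : 0 < y := by linarith
    have e : f y * g y - p (Real.log y) * q (Real.log y) =
        (f y - p (Real.log y)) * (g y - q (Real.log y)) +
        (f y - p (Real.log y)) * q (Real.log y) + p (Real.log y) * (g y - q (Real.log y)) := by
      ring
    have hl : |Real.log y| = Real.log y := abs_of_nonneg (Real.log_nonneg hy)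
    have a1 := (h1 y hy).trans (mul_le_mul_of_nonneg_left (exp_le hy hdc) hC.le)
    have a2 := (h1' y hy).trans (mul_le_mul_of_nonneg_left (exp_le hy hdc') hC'.le)
    have a3 := h2 (Real.log y)
    have a4 := h2' (Real.log y)
    rw [hl] at a3 a4
    have a5 := a3.trans (mul_le_mul_of_nonneg_left (h3 y hy) hK.le)
    have a6 := a4.trans (mul_le_mul_of_nonneg_left (h3' y hy) hK'.le)
    have p1 : 0 < y ^ (-(2 * d)) := Real.rpow_pos_of_pos hy0 _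
    have p2 : 0 < y ^ d := Real.rpow_pos_of_pos hy0 _
    have p3 : y ^ (-(2 * d)) * y ^ d = y ^ (-d) := by
      rw [← Real.rpow_add hy0]
      congr 1
      ring
    have p4 : y ^ (-(2 * d)) * y ^ (-(2 * d)) ≤ y ^ (-d) := by
      rw [← Real.rpow_add hy0]
      apply Real.rpow_le_rpow_of_exponent_le hy
      linarith
    rw [e]
    refine (abs_add_three _ _ _).trans ?_
    rw [abs_mul, abs_mul, abs_mul]
    have b1 : |f y - p (Real.log y)| * |g y - q (Real.log y)| ≤ C * C' * y ^ (-d) := by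
      calc _ ≤ (C * y ^ (-(2 * d))) * (C' * y ^ (-(2 * d))) :=
            mul_le_mul a1 a2 (abs_nonneg _) (by positivity)
        _ = C * C' * (y ^ (-(2 * d)) * y ^ (-(2 * d))) := by ring
        _ ≤ _ := mul_le_mul_of_nonneg_left p4 (by positivity)
    have b2 : |f y - p (Real.log y)| * |q (Real.log y)| ≤ C * K' * D' * y ^ (-d) := by
      calc _ ≤ (C * y ^ (-(2 * d))) * (K' * (D' * y ^ d)) :=
            mul_le_mul a1 a6 (abs_nonneg _) (by positivity)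
        _ = C * K' * D' * (y ^ (-(2 * d)) * y ^ d) := by ring
        _ = _ := by rw [p3]
    have b3 : |p (Real.log y)| * |g y - q (Real.log y)| ≤ K * D * C' * y ^ (-d) := by
      calc _ ≤ (K * (D * y ^ d)) * (C' * y ^ (-(2 * d))) :=
            mul_le_mul a5 a2 (abs_nonneg _) (by positivity)
        _ = K * D * C' * (y ^ (-(2 * d)) * y ^ d) := by ring
        _ = _ := by rw [p3]
    rw [add_mul, add_mul]
    exact add_le_add (add_le_add b1 b2) b3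
  · rw [abs_mul, pow_add]
    calc |p L| * |q L| ≤ (K * (1 + |L|) ^ k) * (K' * (1 + |L|) ^ k') :=
          mul_le_mul (h2 L) (h2' L) (abs_nonneg _) (by positivity)
      _ = _ := by ring

theorem Ap.cmul (a : ℝ) {f p : ℝ → ℝ} (hf : Ap f p) :
    Ap (fun y => a * f y) (fun L => a * p L) := (Ap.cst a).mul hf

theorem Ap.sub {f p g q : ℝ → ℝ} (hf : Ap f p) (hg : Ap g q) :
    Ap (fun y => f y - g y) (fun L => p L - q L) := by
  have h := hf.add (hg.cmul (-1))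
  have e1 : (fun y => f y - g y) = fun y => f y + -1 * g y := by
    funext y
    ring
  have e2 : (fun L => p L - q L) = fun L => p L + -1 * q L := by
    funext y
    ring
  rw [e1, e2]
  exact h

theorem Ap.congr {f p f' p' : ℝ → ℝ} (h : Ap f p) (hf : ∀ y : ℝ, 1 ≤ y → f' y = f y)
    (hp : ∀ L, p' L = p L) : Ap f' p' := by
  have e : p' = p := funext hp
  subst e
  obtain ⟨⟨C, c, hC, hc, h1⟩, h2⟩ := h
  refine ⟨⟨C, c, hC, hc, fun y hy => ?_⟩, h2⟩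
  rw [hf y hy]
  exact h1 y hy

/-- a power saving times a function with a polynomial expansion is negligible -/
theorem Ap.of_le {f g h p q : ℝ → ℝ} {K c : ℝ} (hK : 0 < K) (hc : 0 < c) (hg : Ap g p)
    (hh : Ap h q) (hb : ∀ y : ℝ, 1 ≤ y → |f y - g y| ≤ K * y ^ (-c) * h y) : Ap f p := by
  have h0 : Ap (fun y : ℝ => K * y ^ (-c)) (fun _ => 0) := by
    refine ⟨⟨K, c, hK, hc, fun y hy => ?_⟩, ⟨1, 0, one_pos, fun L => ?_⟩⟩
    · rw [sub_zero, abs_of_nonneg (by positivity)]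
    · rw [abs_zero]
      positivity
  obtain ⟨⟨C1, c1, hC1, hc1, h1⟩, -⟩ := h0.mul hh
  obtain ⟨⟨C2, c2, hC2, hc2, h2⟩, h3⟩ := hg
  refine ⟨⟨C1 + C2, min c1 c2, by positivity, lt_min hc1 hc2, fun y hy => ?_⟩, h3⟩
  have a1 := h1 y hy
  rw [zero_mul, sub_zero] at a1
  have a2 := (hb y hy).trans ((le_abs_self _).trans a1)
  have a3 := h2 y hy
  have e : f y - p (Real.log y) = (f y - g y) + (g y - p (Real.log y)) := by ring
  rw [e, add_mul]
  refine (abs_add_le _ _).trans (add_le_add (a2.trans ?_) (a3.trans ?_))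
  · exact mul_le_mul_of_nonneg_left (exp_le hy (min_le_left _ _)) hC1.le
  · exact mul_le_mul_of_nonneg_left (exp_le hy (min_le_right _ _)) hC2.le

/-- the passage from `z` to `x` -/
theorem Ap.pass {f P : ℝ → ℝ} (hf : ∀ x : ℝ, x < 1 → f x = 0)
    (h : Ap (fun z => f (z ^ 3)) (fun l => P (3 * l))) :
    ∃ C c : ℝ, 0 < C ∧ 0 < c ∧ c ≤ 1 / 4 ∧
      ∀ x : ℝ, 0 < x → |f x - P (Real.log x)| ≤ C * x ^ (-c) := by
  obtain ⟨⟨C, c, hC, hc, h1⟩, ⟨K, k, hK, h2⟩⟩ := h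
  have hP : ∀ L, |P L| ≤ K * (1 + |L|) ^ k := by
    intro L
    have h3 := h2 (L / 3)
    rw [show 3 * (L / 3) = L by ring] at h3
    refine h3.trans (mul_le_mul_of_nonneg_left ?_ hK.le)
    apply pow_le_pow_left₀ (by positivity)
    rw [abs_div, abs_of_pos (by norm_num : (0 : ℝ) < 3)]
    linarith [abs_nonneg L]
  obtain ⟨d, hd⟩ : ∃ d, d = min (c / 3) (1 / 4) := ⟨_, rfl⟩
  have hd0 : 0 < d := by
    rw [hd]
    exact lt_min (by positivity) (by norm_num)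
  have hd1 : 3 * d ≤ c := by
    rw [hd]
    linarith [min_le_left (c / 3) (1 / 4)]
  have hd2 : d ≤ 1 / 4 := by
    rw [hd]
    exact min_le_right _ _
  obtain ⟨D, hD, h3⟩ := log_pow_le k d hd0
  refine ⟨C + K * D, d, by positivity, hd0, hd2, fun x hx => ?_⟩
  have hx4 : 0 < x ^ (-d) := Real.rpow_pos_of_pos hx _
  by_cases hx1 : x < 1
  · rw [hf x hx1, zero_sub, abs_neg]
    refine (hP _).trans ?_
    have h5 := h3 x⁻¹ (one_le_inv_iff₀.2 ⟨hx, hx1.le⟩)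
    rw [Real.log_inv, Real.inv_rpow hx.le, ← Real.rpow_neg hx.le] at h5
    rw [abs_of_nonpos (Real.log_nonpos hx.le hx1.le)]
    calc K * (1 + -Real.log x) ^ k ≤ K * (D * x ^ (-d)) := mul_le_mul_of_nonneg_left h5 hK.le
      _ = K * D * x ^ (-d) := by ring
      _ ≤ (C + K * D) * x ^ (-d) := by
        refine mul_le_mul_of_nonneg_right ?_ hx4.le
        linarith
  · rw [not_lt] at hx1
    have hz1 : (1 : ℝ) ≤ x ^ (1 / 3 : ℝ) := Real.one_le_rpow hx1 (by norm_num)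
    have h5 := h1 (x ^ (1 / 3 : ℝ)) hz1
    have h6 : (x ^ (1 / 3 : ℝ)) ^ 3 = x := by
      rw [← Real.rpow_natCast, ← Real.rpow_mul hx.le]
      norm_num
    have h7 : 3 * Real.log (x ^ (1 / 3 : ℝ)) = Real.log x := by
      rw [Real.log_rpow hx]
      ring
    have h8 : (x ^ (1 / 3 : ℝ)) ^ (-c) ≤ x ^ (-d) := by
      rw [← Real.rpow_mul hx.le]
      apply Real.rpow_le_rpow_of_exponent_le hx1
      linarith
    beta_reduce at h5
    rw [h6, h7] at h5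
    refine h5.trans ?_
    calc C * (x ^ (1 / 3 : ℝ)) ^ (-c) ≤ C * x ^ (-d) := mul_le_mul_of_nonneg_left h8 hC.le
      _ ≤ (C + K * D) * x ^ (-d) := by
        refine mul_le_mul_of_nonneg_right ?_ hx4.le
        have : 0 < K * D := by positivity
        linarith

/-! ### The sums over the ideals -/

section Sums

variable {α : Type} (N : α → ℕ)

/-- the sums of the powers of the logarithm divided by the norm -/
noncomputable def Hj (j : ℕ) (y : ℝ) : ℝ :=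
  ∑ n ∈ FM N y, Real.log (nF N n) ^ j / (nF N n : ℝ)

/-- the size of a pair -/
noncomputable def Nx (p : (α →₀ ℕ) × (α →₀ ℕ)) : ℝ := (nF N p.1 : ℝ) ^ 2 * nF N p.2

/-- the weights -/
noncomputable def wi (i : ℕ) (p : (α →₀ ℕ) × (α →₀ ℕ)) : ℝ :=
  Real.log (nF N p.2) ^ i / ((nF N p.1 : ℝ) * nF N p.2)

open Classical in
/-- the pairs below `x` -/
noncomputable def Sx (x : ℝ) : Finset ((α →₀ ℕ) × (α →₀ ℕ)) :=
  (FM N x ×ˢ FM N x).filter (fun p => Nx N p ≤ x)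

/-- the summatory function -/
noncomputable def Di (i : ℕ) (x : ℝ) : ℝ := ∑ p ∈ Sx N x, wi N i p

variable {N} {ρ δ : ℝ}

theorem one_le (h : AxA N ρ δ) (n : α →₀ ℕ) : (1 : ℝ) ≤ nF N n := by
  exact_mod_cast h.one_le_nF n

theorem Nx_ge (h : AxA N ρ δ) (p : (α →₀ ℕ) × (α →₀ ℕ)) :
    (nF N p.1 : ℝ) ≤ Nx N p ∧ (nF N p.2 : ℝ) ≤ Nx N p ∧ 1 ≤ Nx N p := by
  have h1 := one_le h p.1
  have h2 := one_le h p.2
  have h3 : (1 : ℝ) ≤ (nF N p.1 : ℝ) ^ 2 := one_le_pow₀ h1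
  have h4 : (nF N p.1 : ℝ) ≤ (nF N p.1 : ℝ) ^ 2 := by nlinarith
  unfold Nx
  refine ⟨?_, ?_, ?_⟩
  · nlinarith
  · nlinarith
  · nlinarith

theorem mem_Sx (h : AxA N ρ δ) {x : ℝ} {p : (α →₀ ℕ) × (α →₀ ℕ)} :
    p ∈ Sx N x ↔ Nx N p ≤ x := by
  classical
  unfold Sx
  rw [Finset.mem_filter, Finset.mem_product, h.mem_FM, h.mem_FM]
  obtain ⟨h1, h2, -⟩ := Nx_ge h p
  exact ⟨fun h3 => h3.2, fun h3 => ⟨⟨h1.trans h3, h2.trans h3⟩, h3⟩⟩

theorem Hj_nonneg (h : AxA N ρ δ) (j : ℕ) (y : ℝ) : 0 ≤ Hj N j y := by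
  unfold Hj
  refine Finset.sum_nonneg fun n _ => ?_
  have := Real.log_nonneg (one_le h n)
  positivity

theorem Di_small (h : AxA N ρ δ) (i : ℕ) {x : ℝ} (hx : x < 1) : Di N i x = 0 := by
  unfold Di
  refine Finset.sum_eq_zero fun p hp => ?_
  exfalso
  have h1 := (mem_Sx h).1 hp
  have h2 := (Nx_ge h p).2.2
  linarith

theorem hyperbola (h : AxA N ρ δ) (i : ℕ) {z : ℝ} (hz : 1 ≤ z) :
    Di N i (z ^ 3) = (∑ e ∈ FM N z, 1 / (nF N e : ℝ) * Hj N i (z ^ 3 / (nF N e : ℝ) ^ 2)) +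
      (∑ A ∈ FM N z, Real.log (nF N A) ^ i / (nF N A : ℝ) *
        Hj N 0 (Real.sqrt (z ^ 3 / nF N A))) -
      Hj N 0 z * Hj N i z := by
  classical
  have hz0 : 0 < z := by linarith
  obtain ⟨S1, hS1⟩ : ∃ S1, S1 = (Sx N (z ^ 3)).filter (fun p => (nF N p.1 : ℝ) ≤ z) := ⟨_, rfl⟩
  obtain ⟨S2, hS2⟩ : ∃ S2, S2 = (Sx N (z ^ 3)).filter (fun p => (nF N p.2 : ℝ) ≤ z) := ⟨_, rfl⟩
  have hU : S1 ∪ S2 = Sx N (z ^ 3) := by
    ext p
    rw [Finset.mem_union, hS1, hS2, Finset.mem_filter, Finset.mem_filter]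
    constructor
    · rintro (h | h) <;> exact h.1
    · intro h'
      by_cases h1 : (nF N p.1 : ℝ) ≤ z
      · exact Or.inl ⟨h', h1⟩
      · refine Or.inr ⟨h', ?_⟩
        by_contra h2
        rw [not_le] at h1 h2
        have h3 := (mem_Sx h).1 h'
        have h4 : z ^ 2 < (nF N p.1 : ℝ) ^ 2 := by gcongr
        have h5 : z ^ 3 < (nF N p.1 : ℝ) ^ 2 * nF N p.2 := by
          calc z ^ 3 = z ^ 2 * z := by ring
            _ < (nF N p.1 : ℝ) ^ 2 * nF N p.2 := by gcongr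
        unfold Nx at h3
        linarith
  have hI : S1 ∩ S2 = FM N z ×ˢ FM N z := by
    ext p
    rw [Finset.mem_inter, hS1, hS2, Finset.mem_filter, Finset.mem_filter, Finset.mem_product,
      h.mem_FM, h.mem_FM, mem_Sx h]
    constructor
    · rintro ⟨⟨-, h4⟩, -, h5⟩
      exact ⟨h4, h5⟩
    · rintro ⟨h4, h5⟩
      have h6 : Nx N p ≤ z ^ 3 := by
        unfold Nx
        calc (nF N p.1 : ℝ) ^ 2 * nF N p.2 ≤ z ^ 2 * z := by gcongr
          _ = z ^ 3 := by ring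
      exact ⟨⟨h6, h4⟩, ⟨h6, h5⟩⟩
  have hsum := Finset.sum_union_inter (s₁ := S1) (s₂ := S2) (f := wi N i)
  rw [hU, hI] at hsum
  have h1 : ∑ p ∈ S1, wi N i p =
      ∑ e ∈ FM N z, 1 / (nF N e : ℝ) * Hj N i (z ^ 3 / (nF N e : ℝ) ^ 2) := by
    rw [Finset.sum_finset_product S1 (FM N z) (fun e => FM N (z ^ 3 / (nF N e : ℝ) ^ 2))]
    · refine Finset.sum_congr rfl fun e _ => ?_
      unfold Hj
      rw [Finset.mul_sum]
      refine Finset.sum_congr rfl fun A _ => ?_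
      unfold wi
      rw [div_mul_div_comm, one_mul]
    · intro p
      have hp := h.nF_pos p.1
      rw [hS1, Finset.mem_filter, mem_Sx h, h.mem_FM, h.mem_FM, le_div_iff₀ (by positivity)]
      unfold Nx
      rw [mul_comm (nF N p.2 : ℝ)]
      exact and_comm
  have h2 : ∑ p ∈ S2, wi N i p = ∑ A ∈ FM N z, Real.log (nF N A) ^ i / (nF N A : ℝ) *
      Hj N 0 (Real.sqrt (z ^ 3 / nF N A)) := by
    rw [Finset.sum_finset_product_right S2 (FM N z)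
      (fun A => FM N (Real.sqrt (z ^ 3 / nF N A)))]
    · refine Finset.sum_congr rfl fun A _ => ?_
      unfold Hj
      rw [Finset.mul_sum]
      refine Finset.sum_congr rfl fun e _ => ?_
      unfold wi
      rw [pow_zero, div_mul_div_comm, mul_one, mul_comm (nF N A : ℝ)]
    · intro p
      have hp := h.nF_pos p.2
      have hp1 := h.nF_pos p.1
      rw [hS2, Finset.mem_filter, mem_Sx h, h.mem_FM, h.mem_FM,
        Real.le_sqrt' hp1, le_div_iff₀ hp]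
      unfold Nx
      exact and_comm
  have h3 : ∑ p ∈ FM N z ×ˢ FM N z, wi N i p = Hj N 0 z * Hj N i z := by
    unfold Hj
    rw [Finset.sum_mul_sum, Finset.sum_product]
    refine Finset.sum_congr rfl fun e _ => Finset.sum_congr rfl fun A _ => ?_
    unfold wi
    rw [pow_zero, div_mul_div_comm, one_mul]
  rw [h1, h2, h3] at hsum
  unfold Di
  linarith

/-- the first sum of the hyperbola method -/
theorem sum_one (h : AxA N ρ δ) (i : ℕ) {p : ℝ → ℝ} {K c : ℝ} (hK : 0 < K) (hc : 0 < c)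
    (hH : ∀ y : ℝ, 1 ≤ y → |Hj N i y - p (Real.log y)| ≤ K * y ^ (-c)) {z : ℝ} (hz : 1 ≤ z) :
    |(∑ e ∈ FM N z, 1 / (nF N e : ℝ) * Hj N i (z ^ 3 / (nF N e : ℝ) ^ 2)) -
      ∑ e ∈ FM N z, 1 / (nF N e : ℝ) * p (3 * Real.log z - 2 * Real.log (nF N e))| ≤
      K * z ^ (-c) * Hj N 0 z := by
  have hz0 : 0 < z := by linarith
  rw [← Finset.sum_sub_distrib]
  refine (Finset.abs_sum_le_sum_abs _ _).trans ?_
  have e0 : Hj N 0 z = ∑ n ∈ FM N z, Real.log (nF N n) ^ 0 / (nF N n : ℝ) := rfl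
  rw [e0, Finset.mul_sum]
  refine Finset.sum_le_sum fun e he => ?_
  rw [h.mem_FM] at he
  have he0 := h.nF_pos e
  have hy : z ≤ z ^ 3 / (nF N e : ℝ) ^ 2 := by
    rw [le_div_iff₀ (by positivity)]
    calc z * (nF N e : ℝ) ^ 2 ≤ z * z ^ 2 := by gcongr
      _ = z ^ 3 := by ring
  have h1 := hH (z ^ 3 / (nF N e : ℝ) ^ 2) (hz.trans hy)
  have hlog : Real.log (z ^ 3 / (nF N e : ℝ) ^ 2) =
      3 * Real.log z - 2 * Real.log (nF N e) := by
    rw [Real.log_div (by positivity) (by positivity), Real.log_pow, Real.log_pow]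
    push_cast
    ring
  rw [hlog] at h1
  rw [← mul_sub, abs_mul, abs_of_pos (by positivity : (0 : ℝ) < 1 / (nF N e : ℝ)), pow_zero]
  have h2 : (z ^ 3 / (nF N e : ℝ) ^ 2) ^ (-c) ≤ z ^ (-c) :=
    Real.rpow_le_rpow_of_nonpos hz0 hy (by linarith)
  have h3 := h1.trans (mul_le_mul_of_nonneg_left h2 hK.le)
  rw [mul_comm (K * z ^ (-c))]
  exact mul_le_mul_of_nonneg_left h3 (by positivity)

/-- the second sum of the hyperbola method -/
theorem sum_two (h : AxA N ρ δ) (i : ℕ) {p : ℝ → ℝ} {K c : ℝ} (hK : 0 < K) (hc : 0 < c)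
    (hH : ∀ y : ℝ, 1 ≤ y → |Hj N 0 y - p (Real.log y)| ≤ K * y ^ (-c)) {z : ℝ} (hz : 1 ≤ z) :
    |(∑ A ∈ FM N z, Real.log (nF N A) ^ i / (nF N A : ℝ) *
        Hj N 0 (Real.sqrt (z ^ 3 / nF N A))) -
      ∑ A ∈ FM N z, Real.log (nF N A) ^ i / (nF N A : ℝ) *
        p ((3 * Real.log z - Real.log (nF N A)) / 2)| ≤ K * z ^ (-c) * Hj N i z := by
  have hz0 : 0 < z := by linarith
  rw [← Finset.sum_sub_distrib]
  refine (Finset.abs_sum_le_sum_abs _ _).trans ?_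
  have e0 : Hj N i z = ∑ n ∈ FM N z, Real.log (nF N n) ^ i / (nF N n : ℝ) := rfl
  rw [e0, Finset.mul_sum]
  refine Finset.sum_le_sum fun A hA => ?_
  rw [h.mem_FM] at hA
  have hA0 := h.nF_pos A
  have hA1 := one_le h A
  have hy : z ≤ Real.sqrt (z ^ 3 / nF N A) := by
    refine Real.le_sqrt_of_sq_le ?_
    rw [le_div_iff₀ hA0]
    calc z ^ 2 * (nF N A : ℝ) ≤ z ^ 2 * z := by gcongr
      _ = z ^ 3 := by ring
  have h1 := hH (Real.sqrt (z ^ 3 / nF N A)) (hz.trans hy)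
  have hlog : Real.log (Real.sqrt (z ^ 3 / nF N A)) =
      (3 * Real.log z - Real.log (nF N A)) / 2 := by
    rw [Real.log_sqrt (by positivity), Real.log_div (by positivity) hA0.ne', Real.log_pow]
    push_cast
    ring
  rw [hlog] at h1
  have hlA : 0 ≤ Real.log (nF N A) := Real.log_nonneg hA1
  rw [← mul_sub, abs_mul,
    abs_of_nonneg (by positivity : (0 : ℝ) ≤ Real.log (nF N A) ^ i / (nF N A : ℝ))]
  have h2 : (Real.sqrt (z ^ 3 / nF N A)) ^ (-c) ≤ z ^ (-c) :=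
    Real.rpow_le_rpow_of_nonpos hz0 hy (by linarith)
  have h3 := h1.trans (mul_le_mul_of_nonneg_left h2 hK.le)
  rw [mul_comm (K * z ^ (-c))]
  exact mul_le_mul_of_nonneg_left h3 (by positivity)

/-! ### The expansions -/

theorem H_zero (h : AxA N ρ δ) (hE : T_EXP) :
    ∃ γ : ℝ, Ap (Hj N 0) (fun L => ρ * L + γ) := by
  obtain ⟨c, C, hC, h1⟩ := hE α N ρ δ h 0
  refine ⟨c 0, ⟨⟨C, δ, hC, h.del, fun y hy => ?_⟩, ?_⟩⟩
  · have h2 := h1 y hy
    have e1 : Lam N (fun _ => 1) (lg 0) y = Hj N 0 y := by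
      unfold Lam Hj lg
      refine Finset.sum_congr rfl fun n _ => ?_
      rw [pow_zero, pow_zero, mul_one]
    have e2 : ρ * lg (0 + 1) y / ((0 : ℕ) + 1 : ℝ) +
        ∑ j ∈ Finset.range (0 + 1), c j * lg j y = ρ * Real.log y + c 0 := by
      rw [Finset.sum_range_one]
      unfold lg
      push_cast
      ring
    rw [e1, e2] at h2
    exact h2
  · exact (((Ap.cst ρ).mul Ap.log).add (Ap.cst (c 0))).bd

theorem L_one (h : AxA N ρ δ) (hE : T_EXP) :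
    ∃ c₁ c₀ : ℝ, Ap (Lam N (fun _ => 1) (lg 1)) (fun L => ρ / 2 * L ^ 2 + c₁ * L + c₀) := by
  obtain ⟨c, C, hC, h1⟩ := hE α N ρ δ h 1
  refine ⟨c 1, c 0, ⟨⟨C, δ, hC, h.del, fun y hy => ?_⟩, ?_⟩⟩
  · have h2 := h1 y hy
    have e2 : ρ * lg (1 + 1) y / ((1 : ℕ) + 1 : ℝ) +
        ∑ j ∈ Finset.range (1 + 1), c j * lg j y =
        ρ / 2 * Real.log y ^ 2 + c 1 * Real.log y + c 0 := by
      rw [Finset.sum_range_succ, Finset.sum_range_one]
      unfold lg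
      push_cast
      ring
    rw [e2] at h2
    exact h2
  · exact (((((Ap.log.mul Ap.log).cmul (ρ / 2)).add (Ap.log.cmul (c 1))).add
      (Ap.cst (c 0))).congr (p' := fun L => ρ / 2 * L ^ 2 + c 1 * L + c 0)
      (fun _ _ => rfl) (fun L => by ring)).bd

theorem L_two (h : AxA N ρ δ) (hE : T_EXP) :
    ∃ c₂ c₁ c₀ : ℝ, Ap (Lam N (fun _ => 1) (lg 2))
      (fun L => ρ / 3 * L ^ 3 + c₂ * L ^ 2 + c₁ * L + c₀) := by
  obtain ⟨c, C, hC, h1⟩ := hE α N ρ δ h 2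
  refine ⟨c 2, c 1, c 0, ⟨⟨C, δ, hC, h.del, fun y hy => ?_⟩, ?_⟩⟩
  · have h2 := h1 y hy
    have e2 : ρ * lg (2 + 1) y / ((2 : ℕ) + 1 : ℝ) +
        ∑ j ∈ Finset.range (2 + 1), c j * lg j y =
        ρ / 3 * Real.log y ^ 3 + c 2 * Real.log y ^ 2 + c 1 * Real.log y + c 0 := by
      rw [Finset.sum_range_succ, Finset.sum_range_succ, Finset.sum_range_one]
      unfold lg
      push_cast
      ring
    rw [e2] at h2
    exact h2
  · exact ((((((Ap.log.mul (Ap.log.mul Ap.log)).cmul (ρ / 3)).add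
      ((Ap.log.mul Ap.log).cmul (c 2))).add (Ap.log.cmul (c 1))).add (Ap.cst (c 0))).congr
      (p' := fun L => ρ / 3 * L ^ 3 + c 2 * L ^ 2 + c 1 * L + c 0)
      (fun _ _ => rfl) (fun L => by ring)).bd

theorem H_one (h : AxA N ρ δ) (hE : T_EXP) :
    ∃ b₁ b₀ : ℝ, Ap (Hj N 1) (fun L => ρ / 2 * L ^ 2 + b₁ * L + b₀) := by
  obtain ⟨γ, h0⟩ := H_zero h hE
  obtain ⟨c₁, c₀, h1⟩ := L_one h hE
  refine ⟨γ - c₁, -c₀, ((Ap.log.mul h0).sub h1).congr (fun y hy => ?_) (fun L => by ring)⟩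
  unfold Hj Lam lg
  rw [Finset.mul_sum, ← Finset.sum_sub_distrib]
  refine Finset.sum_congr rfl fun n _ => ?_
  rw [Real.log_div (by linarith) (h.nF_pos n).ne']
  ring

theorem H_two (h : AxA N ρ δ) (hE : T_EXP) :
    ∃ b₂ b₁ b₀ : ℝ, Ap (Hj N 2) (fun L => ρ / 3 * L ^ 3 + b₂ * L ^ 2 + b₁ * L + b₀) := by
  obtain ⟨γ, h0⟩ := H_zero h hE
  obtain ⟨d₁, d₀, h1⟩ := H_one h hE
  obtain ⟨c₂, c₁, c₀, h2⟩ := L_two h hE
  refine ⟨c₂ - γ + 2 * d₁, c₁ + 2 * d₀, c₀, ((h2.sub (Ap.log.mul (Ap.log.mul h0))).add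
    ((Ap.log.mul h1).cmul 2)).congr (fun y hy => ?_) (fun L => by ring)⟩
  unfold Hj Lam lg
  rw [Finset.mul_sum, Finset.mul_sum, Finset.mul_sum, Finset.mul_sum, ← Finset.sum_sub_distrib,
    ← Finset.sum_add_distrib]
  refine Finset.sum_congr rfl fun n _ => ?_
  rw [Real.log_div (by linarith) (h.nF_pos n).ne']
  ring

theorem Dz_zero (h : AxA N ρ δ) (hE : T_EXP) :
    ∃ a b : ℝ, Ap (fun z => Di N 0 (z ^ 3))
      (fun l => ρ ^ 2 * (3 * l) ^ 2 / 4 + a * (3 * l) + b) := by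
  obtain ⟨γ, h0⟩ := H_zero h hE
  obtain ⟨b₁, b₀, h1⟩ := H_one h hE
  obtain ⟨K, c, hK, hc, hH⟩ := h0.err
  -- the explicit part
  have m1 : Ap (fun z => (3 * ρ * Real.log z + γ) * Hj N 0 z - 2 * ρ * Hj N 1 z)
      (fun l => (3 * ρ * l + γ) * (ρ * l + γ) -
        2 * ρ * (ρ / 2 * l ^ 2 + b₁ * l + b₀)) :=
    (((Ap.log.cmul (3 * ρ)).add (Ap.cst γ)).mul h0).sub (h1.cmul (2 * ρ))
  have m2 : Ap (fun z => (3 / 2 * ρ * Real.log z + γ) * Hj N 0 z - ρ / 2 * Hj N 1 z)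
      (fun l => (3 / 2 * ρ * l + γ) * (ρ * l + γ) -
        ρ / 2 * (ρ / 2 * l ^ 2 + b₁ * l + b₀)) :=
    (((Ap.log.cmul (3 / 2 * ρ)).add (Ap.cst γ)).mul h0).sub (h1.cmul (ρ / 2))
  have s1 := Ap.of_le (f := fun z => ∑ e ∈ FM N z, 1 / (nF N e : ℝ) *
    Hj N 0 (z ^ 3 / (nF N e : ℝ) ^ 2)) hK hc m1 h0 (fun z hz => by
      have h4 := sum_one h 0 (p := fun L => ρ * L + γ) hK hc hH hz
      have e : ∑ e ∈ FM N z, 1 / (nF N e : ℝ) *
          (ρ * (3 * Real.log z - 2 * Real.log (nF N e)) + γ) =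
          (3 * ρ * Real.log z + γ) * Hj N 0 z - 2 * ρ * Hj N 1 z := by
        unfold Hj
        rw [Finset.mul_sum, Finset.mul_sum, ← Finset.sum_sub_distrib]
        refine Finset.sum_congr rfl fun e _ => ?_
        ring
      rw [e] at h4
      exact h4)
  have s2 := Ap.of_le (f := fun z => ∑ A ∈ FM N z, Real.log (nF N A) ^ 0 / (nF N A : ℝ) *
    Hj N 0 (Real.sqrt (z ^ 3 / nF N A))) hK hc m2 h0 (fun z hz => by
      have h4 := sum_two h 0 (p := fun L => ρ * L + γ) hK hc hH hz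
      have e : ∑ A ∈ FM N z, Real.log (nF N A) ^ 0 / (nF N A : ℝ) *
          (ρ * ((3 * Real.log z - Real.log (nF N A)) / 2) + γ) =
          (3 / 2 * ρ * Real.log z + γ) * Hj N 0 z - ρ / 2 * Hj N 1 z := by
        unfold Hj
        rw [Finset.mul_sum, Finset.mul_sum, ← Finset.sum_sub_distrib]
        refine Finset.sum_congr rfl fun e _ => ?_
        ring
      rw [e] at h4
      exact h4)
  refine ⟨(9 / 2 * ρ * γ - 5 / 2 * ρ * b₁) / 3, γ ^ 2 - 5 / 2 * ρ * b₀,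
    ((s1.add s2).sub (h0.mul h0)).congr (fun z hz => ?_) (fun l => by ring)⟩
  exact hyperbola h 0 hz

theorem Dz_one (h : AxA N ρ δ) (hE : T_EXP) :
    ∃ a b c : ℝ, Ap (fun z => Di N 1 (z ^ 3))
      (fun l => ρ ^ 2 * (3 * l) ^ 3 / 12 + a * (3 * l) ^ 2 + b * (3 * l) + c) := by
  obtain ⟨γ, h0⟩ := H_zero h hE
  obtain ⟨b₁, b₀, h1⟩ := H_one h hE
  obtain ⟨d₂, d₁, d₀, h2⟩ := H_two h hE
  obtain ⟨K, c, hK, hc, hH⟩ := h0.err
  obtain ⟨K', c', hK', hc', hH'⟩ := h1.err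
  -- the explicit part
  have m1 : Ap (fun z => ((9 / 2 * ρ * (Real.log z * Real.log z) + 3 * b₁ * Real.log z) + b₀) *
      Hj N 0 z - (6 * ρ * Real.log z + 2 * b₁) * Hj N 1 z + 2 * ρ * Hj N 2 z)
      (fun l => ((9 / 2 * ρ * (l * l) + 3 * b₁ * l) + b₀) * (ρ * l + γ) -
        (6 * ρ * l + 2 * b₁) * (ρ / 2 * l ^ 2 + b₁ * l + b₀) +
        2 * ρ * (ρ / 3 * l ^ 3 + d₂ * l ^ 2 + d₁ * l + d₀)) :=
    ((((((Ap.log.mul Ap.log).cmul (9 / 2 * ρ)).add (Ap.log.cmul (3 * b₁))).add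
      (Ap.cst b₀)).mul h0).sub (((Ap.log.cmul (6 * ρ)).add (Ap.cst (2 * b₁))).mul h1)).add
      (h2.cmul (2 * ρ))
  have m2 : Ap (fun z => (3 / 2 * ρ * Real.log z + γ) * Hj N 1 z - ρ / 2 * Hj N 2 z)
      (fun l => (3 / 2 * ρ * l + γ) * (ρ / 2 * l ^ 2 + b₁ * l + b₀) -
        ρ / 2 * (ρ / 3 * l ^ 3 + d₂ * l ^ 2 + d₁ * l + d₀)) :=
    (((Ap.log.cmul (3 / 2 * ρ)).add (Ap.cst γ)).mul h1).sub (h2.cmul (ρ / 2))
  have s1 := Ap.of_le (f := fun z => ∑ e ∈ FM N z, 1 / (nF N e : ℝ) *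
    Hj N 1 (z ^ 3 / (nF N e : ℝ) ^ 2)) hK' hc' m1 h0 (fun z hz => by
      have h4 := sum_one h 1 (p := fun L => ρ / 2 * L ^ 2 + b₁ * L + b₀) hK' hc' hH' hz
      have e : ∑ e ∈ FM N z, 1 / (nF N e : ℝ) *
          (ρ / 2 * (3 * Real.log z - 2 * Real.log (nF N e)) ^ 2 +
            b₁ * (3 * Real.log z - 2 * Real.log (nF N e)) + b₀) =
          ((9 / 2 * ρ * (Real.log z * Real.log z) + 3 * b₁ * Real.log z) + b₀) *
            Hj N 0 z - (6 * ρ * Real.log z + 2 * b₁) * Hj N 1 z + 2 * ρ * Hj N 2 z := by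
        unfold Hj
        rw [Finset.mul_sum, Finset.mul_sum, Finset.mul_sum, ← Finset.sum_sub_distrib,
          ← Finset.sum_add_distrib]
        refine Finset.sum_congr rfl fun e _ => ?_
        ring
      rw [e] at h4
      exact h4)
  have s2 := Ap.of_le (f := fun z => ∑ A ∈ FM N z, Real.log (nF N A) ^ 1 / (nF N A : ℝ) *
    Hj N 0 (Real.sqrt (z ^ 3 / nF N A))) hK hc m2 h1 (fun z hz => by
      have h4 := sum_two h 1 (p := fun L => ρ * L + γ) hK hc hH hz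
      have e : ∑ A ∈ FM N z, Real.log (nF N A) ^ 1 / (nF N A : ℝ) *
          (ρ * ((3 * Real.log z - Real.log (nF N A)) / 2) + γ) =
          (3 / 2 * ρ * Real.log z + γ) * Hj N 1 z - ρ / 2 * Hj N 2 z := by
        unfold Hj
        rw [Finset.mul_sum, Finset.mul_sum, ← Finset.sum_sub_distrib]
        refine Finset.sum_congr rfl fun e _ => ?_
        ring
      rw [e] at h4
      exact h4)
  have h5 := ((s1.add s2).sub (h0.mul h1))
  obtain ⟨a, ha⟩ : ∃ a : ℝ, a = (9 / 2 * ρ * γ + 3 * b₁ * ρ - 6 * ρ * b₁ - ρ * b₁ + 2 * ρ * d₂ +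
    3 / 2 * ρ * b₁ + γ * ρ / 2 - ρ / 2 * d₂ - ρ * b₁ - γ * ρ / 2) / 9 := ⟨_, rfl⟩
  obtain ⟨b, hb⟩ : ∃ b : ℝ, b = (3 * b₁ * γ + b₀ * ρ - 6 * ρ * b₀ - 2 * b₁ ^ 2 + 2 * ρ * d₁ +
    3 / 2 * ρ * b₀ + γ * b₁ - ρ / 2 * d₁ - ρ * b₀ - γ * b₁) / 3 := ⟨_, rfl⟩
  obtain ⟨c₀, hc₀⟩ : ∃ c₀ : ℝ, c₀ = b₀ * γ - 2 * b₁ * b₀ + 2 * ρ * d₀ + γ * b₀ - ρ / 2 * d₀ -
    γ * b₀ := ⟨_, rfl⟩
  refine ⟨a, b, c₀, h5.congr (fun z hz => ?_) (fun l => ?_)⟩
  · exact hyperbola h 1 hz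
  · rw [ha, hb, hc₀]
    ring

theorem D_zero (h : AxA N ρ δ) (hE : T_EXP) : ∃ a b C c : ℝ, 0 < C ∧ 0 < c ∧ c ≤ 1 / 4 ∧
    ∀ x : ℝ, 0 < x →
      |Di N 0 x - (ρ ^ 2 * Real.log x ^ 2 / 4 + a * Real.log x + b)| ≤ C * x ^ (-c) := by
  obtain ⟨a, b, h1⟩ := Dz_zero h hE
  obtain ⟨C, c, h2⟩ := Ap.pass (f := Di N 0) (P := fun L => ρ ^ 2 * L ^ 2 / 4 + a * L + b)
    (fun x hx => Di_small h 0 hx) h1
  exact ⟨a, b, C, c, h2⟩

theorem D_one (h : AxA N ρ δ) (hE : T_EXP) : ∃ a b c₀ C c : ℝ, 0 < C ∧ 0 < c ∧ c ≤ 1 / 4 ∧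
    ∀ x : ℝ, 0 < x →
      |Di N 1 x - (ρ ^ 2 * Real.log x ^ 3 / 12 + a * Real.log x ^ 2 + b * Real.log x + c₀)| ≤
        C * x ^ (-c) := by
  obtain ⟨a, b, c₀, h1⟩ := Dz_one h hE
  obtain ⟨C, c, h2⟩ := Ap.pass (f := Di N 1)
    (P := fun L => ρ ^ 2 * L ^ 3 / 12 + a * L ^ 2 + b * L + c₀)
    (fun x hx => Di_small h 1 hx) h1
  exact ⟨a, b, c₀, C, c, h2⟩

end Sums

end Pool.Agent.H10.NVK.SSA
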